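import Pool.Agent.U207.QK.Cv
import Pool.Agent.U207.QC.Dsc

/-!
Project QK (helper207), part D: the properties of the covers.
-/

set_option autoImplicit false

namespace Pool.Agent.U207.QK

open MvPolynomial Metric Filter Topology
open Pool.Agent.N254.SQ (Mon ver Extends)
open Pool.Agent.W602.GT (SubVar GeneralType coords)
open Pool.Agent.U207.QC (hI xI pf pf_hom idx_cases general_or disc_or GoodC DiscIn curves_of_discs
  coverEqs)

section alg

variable {k : Type} [Field k] {n N d c : ℕ} {m : Fin (N + 1) → Fin (n + 1) → ℕ} {κ : Type}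
  {F : κ → MvPolynomial (Fin (n + 1)) k} {P ℓ : Fin c → MvPolynomial (Fin (N + 1)) k}

theorem subvar_gen {L : Type} [Field L] [Algebra k L] {y : Fin (N + c + 1) → L}
    (hy : coords k y = ⊤) (F : IntermediateField k L) (j0 : Fin (N + 1))
    (hj0 : (y ∘ hI N c) j0 ≠ 0) (h1 : ∀ i, (y ∘ hI N c) i / (y ∘ hI N c) j0 ∈ F)
    (h2 : ∀ i, (y ∘ xI N c) i / (y ∘ hI N c) j0 ∈ F) : F = ⊤ := by
  rw [eq_top_iff, ← hy]
  apply IntermediateField.adjoin_le_iff.2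
  rintro _ ⟨i, j, hj, rfl⟩
  have h3 : ∀ l, y l / (y ∘ hI N c) j0 ∈ F := by
    intro l
    rcases idx_cases l with ⟨j, rfl⟩ | ⟨i, rfl⟩
    · exact h1 j
    · exact h2 i
  have h4 : y i / y j = (y i / (y ∘ hI N c) j0) / (y j / (y ∘ hI N c) j0) := by
    rw [div_div_div_cancel_right₀ hj0]
  rw [h4]
  exact div_mem (h3 i) (h3 j)

/-- closed subvarieties of the cover are of general type or lie over `v(F = 0)` -/
theorem Cv.special [IsAlgClosed k] [CharZero k] (h : Cv n N d c m F P ℓ) {L : Type} [Field L]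
    [Algebra k L] {w : ℕ} {z : Fin (N + c + 1) → L} (hz : z ≠ 0) (hgen : coords k z = ⊤)
    (hdim : Algebra.trdeg k L = w) (hcov : ∀ i, aeval z (coverForm P i) = 0) :
    GeneralType k L w ∨ ∃ (x : Fin (n + 1) → L) (c₀ : L), x ≠ 0 ∧ c₀ ≠ 0 ∧
      (∀ i, aeval x (F i) = 0) ∧ z ∘ hI N c = c₀ • ver m x := by
  obtain ⟨s, B, κ', M, Z, a, ha, hZ, h1, h2, h3, h4, h5, hP, hsub, hcone⟩ := h.ex
  have hh : z ∘ hI N c ≠ 0 := base_ne h.homP hz hcov
  have hx : ∀ i, (z ∘ xI N c) i ^ 2 = aeval (z ∘ hI N c) (pf B κ' Z (a i)) := by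
    intro i
    have h1 := hcov i
    rw [aeval_cover, sub_eq_zero, hP i] at h1
    exact h1
  rcases general_or hZ h1 h2 ha h3 h5 hh hx
    (fun F j0 hj0 h1 h2 => subvar_gen hgen F j0 hj0 h1 h2) hdim with h6 | h6
  · exact Or.inl h6
  · exact Or.inr (hcone L _ hh h6)

end alg

/-- the cover over the complex numbers -/
theorem Cv.goodC {n N d c : ℕ} {m : Fin (N + 1) → Fin (n + 1) → ℕ} {κ : Type}
    {F : κ → MvPolynomial (Fin (n + 1)) ℂ} {P ℓ : Fin c → MvPolynomial (Fin (N + 1)) ℂ}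
    (h : Cv n N d c m F P ℓ) :
    Pool.Agent.U207.QC.SmoothCover P ∧ GoodC n N d c m (Set.range F) P ℓ := by
  obtain ⟨s, B, κ', M, Z, a, ha, hZ, h1, h2, h3, h4, h5, hP, hsub, hcone⟩ := h.ex
  have hrange : ∀ (L : Type) [Field L] [Algebra ℂ L] (x : Fin (n + 1) → L),
      (∀ p ∈ Set.range F, aeval x p = 0) ↔ ∀ i, aeval x (F i) = 0 := by
    intro L _ _ x
    constructor
    · intro hx i
      exact hx _ ⟨i, rfl⟩
    · rintro hx _ ⟨i, rfl⟩
      exact hx i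
  have hPe : P = fun i => pf B κ' Z (a i) := funext hP
  have hpts : ∀ y : Fin (N + 1) → ℂ, y ≠ 0 → (∀ t, eval y (Z t) = 0) →
      ∃ x : Fin (n + 1) → ℂ, x ≠ 0 ∧ (∀ p ∈ Set.range F, eval x p = 0) ∧ y = ver m x := by
    intro y hy hyt
    obtain ⟨x, c₀, hx, hc₀, hxS, hyx⟩ := hcone ℂ y hy hyt
    obtain ⟨c₁, hc₁⟩ := IsAlgClosed.exists_pow_nat_eq c₀ (by have := h.hd; omega : 0 < d)
    have hc₁0 : c₁ ≠ 0 := by
      rintro rfl
      rw [zero_pow (by have := h.hd; omega)] at hc₁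
      exact hc₀ hc₁.symm
    refine ⟨c₁ • x, smul_ne_zero hc₁0 hx, ?_, ?_⟩
    · rintro _ ⟨i, rfl⟩
      obtain ⟨e, -, he⟩ := h.hF i
      rw [Pool.Agent.N254.SQ.eval_scale he]
      have h1 : eval x (F i) = 0 := hxS i
      rw [h1, mul_zero]
    · rw [hyx, Pool.Agent.N254.SQ.ver_smul h.mon, hc₁]
  have hdisc : ∀ f, DiscIn P f → Extends f ∨
      ∀ w ∈ ball (0 : ℂ) 1 \ {0}, f w ≠ 0 → ∃ x : Fin (n + 1) → ℂ, x ≠ 0 ∧
        (∀ p ∈ Set.range F, eval x p = 0) ∧ f w ∘ hI N c = ver m x := by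
    intro f hf
    have hf' := hf
    rw [hPe] at hf'
    rcases disc_or hZ h1 h2 ha h4 h5 hf' with h6 | h6
    · exact Or.inl h6
    · right
      intro w hw hfw
      exact hpts _ (Pool.Agent.U207.QC.base_ne h.homP hfw fun i => hf.mem w hw i)
        fun t => h6 t w hw
  refine ⟨?_, h.hn, h.hd, h.mon, h.hN, ?_, h.homP, h.homL, ?_, ⟨s, Z, hZ, ?_, ?_⟩, ?_, hdisc, ?_⟩
  · intro y hy hyP
    exact h.smooth ℂ y hy hyP
  · rintro _ ⟨i, rfl⟩
    exact h.hF i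
  · intro L _ _ x hx i
    exact h.sub L x ((hrange L x).1 hx) i
  · intro L _ _ x hx t
    exact hsub L x ((hrange L x).1 hx) t
  · intro L _ _ y hy hyt
    obtain ⟨x, c₀, hx, hc₀, hxS, hyx⟩ := hcone L y hy hyt
    exact ⟨x, c₀, hx, hc₀, (hrange L x).2 hxS, hyx⟩
  · intro L _ _ w z _ hz
    rcases h.special hz.ne hz.gen hz.dim (fun i => hz.mem ⟨_, ⟨i, rfl⟩⟩) with h6 |
      ⟨x, c₀, hx, hc₀, hxS, hyx⟩
    · exact Or.inl h6
    · exact Or.inr ⟨x, c₀, hx, hc₀, (hrange L x).2 hxS, hyx⟩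
  · exact curves_of_discs (R := fun v => ∃ x : Fin (n + 1) → ℂ, x ≠ 0 ∧
      (∀ p ∈ Set.range F, eval x p = 0) ∧ v ∘ hI N c = ver m x) hdisc

end Pool.Agent.U207.QK
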