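import Pool.Agent.U207.QK.DefsC
import Pool.Agent.N254.SQ.Td

/-!
Project QK (helper207): components of closed sets, by generic points, over a field `𝕜`
(after helper383, `Pool/Agent/N254/SQ/Comp.lean`, where `𝕜` is the field of complex numbers).
-/

set_option autoImplicit false

namespace Pool.Agent.U207.QK

open MvPolynomial
open Pool.Agent.W602.GT (SubVar GeneralType IsForm coords)

attribute [local instance] MvPolynomial.gradedAlgebra

section comp

variable {𝕜 : Type} [Field 𝕜] {n : ℕ}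

/-- `y` is the generic point of an irreducible closed subset of `P^n` of dimension `w` with function
field `L` -/
structure Gen {n : ℕ} (L : Type) [Field L] [Algebra 𝕜 L] (w : ℕ) (y : Fin (n + 1) → L) : Prop where
  ne : y ≠ 0
  gen : coords 𝕜 y = ⊤
  dim : Algebra.trdeg 𝕜 L = w

/-- the forms vanishing on a closed set: closed under sums in one degree, products, roots -/
structure Idl {n : ℕ} (I : MvPolynomial (Fin (n + 1)) 𝕜 → Prop) : Prop where
  zero : I 0
  add : ∀ (e : ℕ) (G G' : MvPolynomial (Fin (n + 1)) 𝕜), G.IsHomogeneous e →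
    G'.IsHomogeneous e → I G → I G' → I (G + G')
  mul : ∀ G F : MvPolynomial (Fin (n + 1)) 𝕜, IsForm G → IsForm F → I G → I (G * F)
  rad : ∀ (G : MvPolynomial (Fin (n + 1)) 𝕜) (r : ℕ), IsForm G → I (G ^ r) → I G

theorem comp_sum {I : MvPolynomial (Fin (n + 1)) 𝕜 → Prop} (hI : Idl I) (e : ℕ) {α : Type}
    (s : Finset α) (g : α → MvPolynomial (Fin (n + 1)) 𝕜)
    (hg : ∀ a ∈ s, (g a).IsHomogeneous e ∧ I (g a)) :
    (∑ a ∈ s, g a).IsHomogeneous e ∧ I (∑ a ∈ s, g a) := by
  classical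
  induction s using Finset.induction_on with
  | empty =>
    rw [Finset.sum_empty]
    exact ⟨isHomogeneous_zero _ _ _, hI.zero⟩
  | insert a s ha ih =>
    obtain ⟨h1, h2⟩ := ih fun b hb => hg b (Finset.mem_insert_of_mem hb)
    obtain ⟨h3, h4⟩ := hg a (Finset.mem_insert_self a s)
    rw [Finset.sum_insert ha]
    exact ⟨h3.add h1, hI.add e _ _ h3 h1 h4 h2⟩

/-- the forms in the ideal generated by the forms of `I` -/
theorem comp_span {I : MvPolynomial (Fin (n + 1)) 𝕜 → Prop} (hI : Idl I)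
    (p : MvPolynomial (Fin (n + 1)) 𝕜)
    (hp : p ∈ Ideal.span {G : MvPolynomial (Fin (n + 1)) 𝕜 | IsForm G ∧ I G}) :
    ∀ k, I (homogeneousComponent k p) := by
  refine Submodule.span_induction (p := fun p _ => ∀ k, I (homogeneousComponent k p))
    ?_ ?_ ?_ ?_ hp
  · rintro G ⟨⟨e, he⟩, hG⟩ k
    rw [homogeneousComponent_of_mem he]
    split_ifs
    · exact hG
    · exact hI.zero
  · intro k
    rw [map_zero]
    exact hI.zero
  · intro p q _ _ hp hq k
    rw [map_add]
    exact hI.add k _ _ (homogeneousComponent_isHomogeneous k p)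
      (homogeneousComponent_isHomogeneous k q) (hp k) (hq k)
  · intro a p _ hp k
    have e1 : a * p = ∑ i ∈ Finset.range (a.totalDegree + 1),
        ∑ j ∈ Finset.range (p.totalDegree + 1),
          homogeneousComponent i a * homogeneousComponent j p := by
      rw [← Finset.sum_mul_sum, sum_homogeneousComponent, sum_homogeneousComponent]
    rw [smul_eq_mul, e1, map_sum]
    refine (comp_sum hI k _ _ fun i _ => ?_).2
    rw [map_sum]
    refine comp_sum hI k _ _ fun j _ => ?_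
    have hij : (homogeneousComponent i a * homogeneousComponent j p).IsHomogeneous (i + j) :=
      (homogeneousComponent_isHomogeneous i a).mul (homogeneousComponent_isHomogeneous j p)
    rw [homogeneousComponent_of_mem hij]
    split_ifs with h
    · refine ⟨by rw [h]; exact hij, ?_⟩
      rw [mul_comm]
      exact hI.mul _ _ ⟨j, homogeneousComponent_isHomogeneous j p⟩
        ⟨i, homogeneousComponent_isHomogeneous i a⟩ (hp j)
    · exact ⟨isHomogeneous_zero _ _ _, hI.zero⟩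

theorem comp_min_hom {J P : Ideal (MvPolynomial (Fin (n + 1)) 𝕜)}
    (hJ : J.IsHomogeneous (homogeneousSubmodule (Fin (n + 1)) 𝕜)) (hP : P ∈ J.minimalPrimes) :
    P.IsHomogeneous (homogeneousSubmodule (Fin (n + 1)) 𝕜) := by
  have h1 : (P.homogeneousCore (homogeneousSubmodule (Fin (n + 1)) 𝕜)).toIdeal.IsPrime :=
    hP.1.1.homogeneousCore
  have h2 : J ≤ (P.homogeneousCore (homogeneousSubmodule (Fin (n + 1)) 𝕜)).toIdeal := by
    rw [← hJ.toIdeal_homogeneousCore_eq_self]
    exact Ideal.homogeneousCore_mono _ hP.1.2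
  have h3 := hP.2 ⟨h1, h2⟩ (Ideal.toIdeal_homogeneousCore_le _ P)
  exact (Ideal.IsHomogeneous.iff_eq _ _).2 (le_antisymm (Ideal.toIdeal_homogeneousCore_le _ P) h3)

theorem comp_prod_fm {α : Type} (s : Finset α) (f : α → MvPolynomial (Fin (n + 1)) 𝕜)
    (hf : ∀ a ∈ s, IsForm (f a)) : IsForm (∏ a ∈ s, f a) := by
  classical
  induction s using Finset.induction_on with
  | empty =>
    rw [Finset.prod_empty]
    exact ⟨0, isHomogeneous_one _ _⟩
  | insert a s ha ih =>
    obtain ⟨e, he⟩ := ih fun b hb => hf b (Finset.mem_insert_of_mem hb)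
    obtain ⟨e', he'⟩ := hf a (Finset.mem_insert_self a s)
    rw [Finset.prod_insert ha]
    exact ⟨_, he'.mul he⟩

/-- a form in one homogeneous ideal and not in another one -/
theorem comp_form {P P' : Ideal (MvPolynomial (Fin (n + 1)) 𝕜)}
    (hP' : P'.IsHomogeneous (homogeneousSubmodule (Fin (n + 1)) 𝕜)) (h : ¬ P' ≤ P) :
    ∃ G, IsForm G ∧ G ∈ P' ∧ G ∉ P := by
  obtain ⟨p, hp, hp'⟩ := SetLike.not_le_iff_exists.1 h
  by_contra hcon
  push Not at hcon
  apply hp'
  rw [← sum_homogeneousComponent p]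
  refine sum_mem fun i _ => hcon _ ⟨i, homogeneousComponent_isHomogeneous i p⟩ ?_
  exact homogeneousComponent_mem_of_mem hP' hp i

theorem comp_scale {e : ℕ} {Ω : Type} [Field Ω] [Algebra 𝕜 Ω]
    {F : MvPolynomial (Fin (n + 1)) 𝕜} (hF : F.IsHomogeneous e) (c : Ω) (x : Fin (n + 1) → Ω) :
    aeval (fun j => c * x j) F = c ^ e * aeval x F := by
  rw [aeval_def, aeval_def, eval₂_eq', eval₂_eq', Finset.mul_sum]
  apply Finset.sum_congr rfl
  intro α hα
  have h1 : ∑ j, α j = e := by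
    have h2 := hF (mem_support_iff.1 hα)
    rw [Finsupp.weight_apply, Finsupp.sum_fintype _ _ (fun _ => by simp)] at h2
    simpa using h2
  simp only [mul_pow, Finset.prod_mul_distrib]
  rw [Finset.prod_pow_eq_pow_sum, h1]
  ring

open scoped IntermediateField.algebraAdjoinAdjoin in
theorem comp_trdeg {K Ω : Type} [Field K] [Field Ω] [Algebra K Ω] (S : Set Ω) :
    Algebra.trdeg K (IntermediateField.adjoin K S) = Algebra.trdeg K (Algebra.adjoin K S) := by
  have h1 := trdeg_add_eq K (Algebra.adjoin K S) (A := IntermediateField.adjoin K S)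
  rw [← h1, trdeg_eq_zero (R := Algebra.adjoin K S), add_zero]

/-- the generic point of a homogeneous prime ideal -/
theorem comp_gen (P : Ideal (MvPolynomial (Fin (n + 1)) 𝕜)) (hP : P.IsPrime)
    (a : Fin (n + 1)) (ha : (X a : MvPolynomial (Fin (n + 1)) 𝕜) ∉ P) :
    ∃ (L' : Type) (_ : Field L') (_ : Algebra 𝕜 L') (w' : ℕ) (y' : Fin (n + 1) → L'),
        Gen (𝕜 := 𝕜) L' w' y' ∧ y' a = 1 ∧ ∀ G, IsForm G → (aeval y' G = 0 ↔ G ∈ P) := by
  have hdom : IsDomain (MvPolynomial (Fin (n + 1)) 𝕜 ⧸ P) := Ideal.Quotient.isDomain P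
  obtain ⟨ξ, hξ⟩ : ∃ ξ : Fin (n + 1) → FractionRing (MvPolynomial (Fin (n + 1)) 𝕜 ⧸ P),
      ξ = fun j => algebraMap (MvPolynomial (Fin (n + 1)) 𝕜 ⧸ P) _ (Ideal.Quotient.mk P (X j)) :=
    ⟨_, rfl⟩
  have hae : ∀ G, aeval ξ G = algebraMap (MvPolynomial (Fin (n + 1)) 𝕜 ⧸ P)
      (FractionRing (MvPolynomial (Fin (n + 1)) 𝕜 ⧸ P)) (Ideal.Quotient.mk P G) := by
    intro G
    have h1 : (aeval ξ : MvPolynomial (Fin (n + 1)) 𝕜 →ₐ[𝕜]
        FractionRing (MvPolynomial (Fin (n + 1)) 𝕜 ⧸ P)) =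
        (IsScalarTower.toAlgHom 𝕜 (MvPolynomial (Fin (n + 1)) 𝕜 ⧸ P)
          (FractionRing (MvPolynomial (Fin (n + 1)) 𝕜 ⧸ P))).comp (Ideal.Quotient.mkₐ 𝕜 P) := by
      apply MvPolynomial.algHom_ext
      intro j
      rw [aeval_X, hξ]
      rfl
    rw [h1]
    rfl
  have hmem : ∀ G, aeval ξ G = 0 ↔ G ∈ P := by
    intro G
    rw [hae, ← Ideal.Quotient.eq_zero_iff_mem]
    constructor
    · intro h
      exact (IsFractionRing.injective (MvPolynomial (Fin (n + 1)) 𝕜 ⧸ P)
        (FractionRing (MvPolynomial (Fin (n + 1)) 𝕜 ⧸ P))) (by rw [h, map_zero])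
    · intro h
      rw [h, map_zero]
  have hξa : ξ a ≠ 0 := by
    intro h
    apply ha
    rw [← hmem, aeval_X, h]
  obtain ⟨t, ht⟩ : ∃ t : Fin (n + 1) → FractionRing (MvPolynomial (Fin (n + 1)) 𝕜 ⧸ P),
      t = fun j => (ξ a)⁻¹ * ξ j := ⟨_, rfl⟩
  have hta : t a = 1 := by
    rw [ht]
    exact inv_mul_cancel₀ hξa
  let L' := IntermediateField.adjoin 𝕜 (Set.range t)
  let y' : Fin (n + 1) → L' := fun j => ⟨t j, IntermediateField.subset_adjoin 𝕜 _ ⟨j, rfl⟩⟩
  have hya : y' a = 1 := Subtype.ext hta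
  -- the transcendence degree
  have htd : Algebra.trdeg 𝕜 L' ≤ n := by
    have h1 := Pool.Agent.N254.SQ.t_td 𝕜 (FractionRing (MvPolynomial (Fin (n + 1)) 𝕜 ⧸ P)) n n t a t hta
      (fun b => ⟨X b, by rw [aeval_X]⟩)
    rw [← comp_trdeg] at h1
    exact h1
  obtain ⟨w', hw'⟩ := Cardinal.lt_aleph0.1 (lt_of_le_of_lt htd (Cardinal.natCast_lt_aleph0))
  have hval : ∀ G : MvPolynomial (Fin (n + 1)) 𝕜, L'.val (aeval y' G) = aeval t G := by
    intro G
    have h1 : L'.val.comp (aeval y' : MvPolynomial (Fin (n + 1)) 𝕜 →ₐ[𝕜] L') = aeval t := by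
      apply MvPolynomial.algHom_ext
      intro j
      rw [AlgHom.comp_apply, aeval_X, aeval_X]
      rfl
    rw [← h1]
    rfl
  refine ⟨L', inferInstance, inferInstance, w', y', ⟨?_, ?_, hw'⟩, hya, ?_⟩
  · intro h
    have h1 := congrFun h a
    rw [hya] at h1
    exact one_ne_zero h1
  · have h1 : IntermediateField.adjoin 𝕜 (Set.range y') = ⊤ := by
      apply IntermediateField.lift_injective
      rw [IntermediateField.lift_adjoin, IntermediateField.lift_top]
      have h2 : Subtype.val '' Set.range y' = Set.range t := by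
        rw [← Set.range_comp]
        rfl
      rw [h2]
    rw [eq_top_iff, ← h1, IntermediateField.adjoin_le_iff]
    rintro _ ⟨i, rfl⟩
    refine IntermediateField.subset_adjoin 𝕜 _ ⟨i, a, ?_, ?_⟩
    · rw [hya]
      exact one_ne_zero
    · rw [hya, div_one]
  · rintro G ⟨e, he⟩
    rw [← hmem]
    have h1 : aeval t G = (ξ a)⁻¹ ^ e * aeval ξ G := by
      rw [ht]
      exact comp_scale he _ _
    have h2 : aeval y' G = 0 ↔ aeval t G = 0 := by
      rw [← hval]
      constructor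
      · intro h
        rw [h, map_zero]
      · intro h
        exact Subtype.ext h
    rw [h2, h1]
    constructor
    · intro h
      rcases mul_eq_zero.1 h with h | h
      · exact absurd h (pow_ne_zero e (inv_ne_zero hξa))
      · exact h
    · intro h
      rw [h, mul_zero]

end comp

theorem t_comp {𝕜 : Type} [Field 𝕜] [IsAlgClosed 𝕜] (n : ℕ)
    (I : MvPolynomial (Fin (n + 1)) 𝕜 → Prop) (hI : Idl I) (L : Type) [Field L] [Algebra 𝕜 L]
    (w : ℕ) (y : Fin (n + 1) → L) (hy : Gen (𝕜 := 𝕜) L w y)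
    (hIy : ∀ G, IsForm G → I G → aeval y G = 0) :
      (∃ H, IsForm H ∧ aeval y H ≠ 0 ∧ ∀ G : MvPolynomial (Fin (n + 1)) 𝕜,
        IsForm G → aeval y G = 0 → I (G * H)) ∨
      ∃ (L' : Type) (_ : Field L') (_ : Algebra 𝕜 L') (w' : ℕ) (y' : Fin (n + 1) → L'),
        Gen (𝕜 := 𝕜) L' w' y' ∧ 1 ≤ w' ∧ (∀ G, IsForm G → I G → aeval y' G = 0) ∧
        (∀ G : MvPolynomial (Fin (n + 1)) 𝕜, IsForm G → aeval y' G = 0 → aeval y G = 0) ∧
        (∃ G : MvPolynomial (Fin (n + 1)) 𝕜, IsForm G ∧ aeval y G = 0 ∧ aeval y' G ≠ 0) ∧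
        ∃ H, IsForm H ∧ aeval y' H ≠ 0 ∧ ∀ G : MvPolynomial (Fin (n + 1)) 𝕜,
          IsForm G → aeval y' G = 0 → I (G * H) := by
  obtain ⟨J, hJ⟩ : ∃ J : Ideal (MvPolynomial (Fin (n + 1)) 𝕜),
      J = Ideal.span {G : MvPolynomial (Fin (n + 1)) 𝕜 | IsForm G ∧ I G} := ⟨_, rfl⟩
  have hJh : J.IsHomogeneous (homogeneousSubmodule (Fin (n + 1)) 𝕜) := by
    rw [hJ]
    refine Ideal.homogeneous_span _ _ ?_
    rintro G ⟨⟨e, he⟩, -⟩
    exact ⟨e, he⟩
  obtain ⟨K, hK⟩ : ∃ K : Ideal (MvPolynomial (Fin (n + 1)) 𝕜),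
      K = RingHom.ker (aeval y : MvPolynomial (Fin (n + 1)) 𝕜 →ₐ[𝕜] L) := ⟨_, rfl⟩
  have hKm : ∀ G, G ∈ K ↔ aeval y G = 0 := by
    intro G
    rw [hK, RingHom.mem_ker]
  have hKp : K.IsPrime := by
    rw [hK]
    exact RingHom.ker_isPrime _
  have hJK : J ≤ K := by
    rw [hJ, Ideal.span_le]
    rintro G ⟨h1, h2⟩
    exact (hKm G).2 (hIy G h1 h2)
  obtain ⟨P, hPm, hPK⟩ := Ideal.exists_minimalPrimes_le hJK
  have hPp : P.IsPrime := hPm.1.1
  have hPh := comp_min_hom hJh hPm
  have hfin : J.minimalPrimes.Finite := Ideal.finite_minimalPrimes_of_isNoetherianRing _ J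
  -- forms in the other minimal primes
  have hex : ∀ P' ∈ J.minimalPrimes, P' ≠ P → ∃ G, IsForm G ∧ G ∈ P' ∧ G ∉ P := by
    intro P' hP' hne
    refine comp_form (comp_min_hom hJh hP') fun hle => hne ?_
    exact le_antisymm hle (hPm.2 hP'.1 hle)
  choose! h hh1 hh2 hh3 using hex
  classical
  obtain ⟨H, hH⟩ : ∃ H, H = ∏ P' ∈ hfin.toFinset.erase P, h P' := ⟨_, rfl⟩
  have hmemT : ∀ P', P' ∈ hfin.toFinset.erase P ↔ P' ≠ P ∧ P' ∈ J.minimalPrimes := by
    intro P'
    rw [Finset.mem_erase, Set.Finite.mem_toFinset]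
  have hHF : IsForm H := by
    rw [hH]
    refine comp_prod_fm _ _ fun P' hP' => ?_
    rw [hmemT] at hP'
    exact hh1 P' hP'.2 hP'.1
  have hHP : H ∉ P := by
    rw [hH, hPp.prod_mem_iff]
    rintro ⟨P', hP', h1⟩
    rw [hmemT] at hP'
    exact hh3 P' hP'.2 hP'.1 h1
  have hGH : ∀ G, IsForm G → G ∈ P → I (G * H) := by
    rintro G ⟨e, he⟩ hG
    have h1 : G * H ∈ J.radical := by
      rw [← Ideal.sInf_minimalPrimes, Ideal.mem_sInf]
      intro P' hP'
      by_cases hPP : P' = P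
      · rw [hPP]
        exact P.mul_mem_right _ hG
      · refine P'.mul_mem_left _ ?_
        rw [hH]
        exact P'.mem_of_dvd (Finset.dvd_prod_of_mem h ((hmemT P').2 ⟨hPP, hP'⟩))
          (hh2 P' hP' hPP)
    obtain ⟨r, hr⟩ := h1
    obtain ⟨e', he'⟩ := hHF
    have h2 : ((G * H) ^ r).IsHomogeneous ((e + e') * r) := (he.mul he').pow r
    rw [hJ] at hr
    have h3 := comp_span hI _ hr ((e + e') * r)
    rw [homogeneousComponent_of_mem h2, if_pos rfl] at h3
    exact hI.rad _ r ⟨_, he.mul he'⟩ h3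
  by_cases hA : ∀ G, IsForm G → aeval y G = 0 → G ∈ P
  · left
    refine ⟨H, hHF, fun h0 => hHP (hA H hHF h0), fun G hG h0 => hGH G hG (hA G hG h0)⟩
  · right
    push Not at hA
    obtain ⟨G₀, hG₀, hG₀y, hG₀P⟩ := hA
    obtain ⟨a, ha⟩ : ∃ a, y a ≠ 0 := by
      by_contra hcon
      push Not at hcon
      exact hy.ne (funext hcon)
    have hXa : (X a : MvPolynomial (Fin (n + 1)) 𝕜) ∉ P := by
      intro h1
      have h2 := (hKm _).1 (hPK h1)
      rw [aeval_X] at h2
      exact ha h2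
    obtain ⟨L', iF, iA, w', y', hgen, hya, hmem⟩ := comp_gen P hPp a hXa
    refine ⟨L', iF, iA, w', y', hgen, ?_, ?_, ?_, ⟨G₀, hG₀, hG₀y, ?_⟩, H, hHF, ?_, ?_⟩
    · by_contra hw
      have hw0 : w' = 0 := by omega
      subst hw0
      have h1 := hgen.dim
      rw [Nat.cast_zero, trdeg_eq_zero_iff] at h1
      have hsurj : Function.Surjective (algebraMap 𝕜 L') :=
        (IsAlgClosed.algebraMap_bijective_of_isIntegral (k := 𝕜) (K := L')).2
      choose c hc using fun j => hsurj (y' j)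
      have hyc : ∀ j, y j = y a * algebraMap 𝕜 L (c j) := by
        intro j
        have h2 : (X j - C (c j) * X a : MvPolynomial (Fin (n + 1)) 𝕜).IsHomogeneous 1 := by
          refine (isHomogeneous_X _ _).sub ?_
          have := (isHomogeneous_C (Fin (n + 1)) (c j)).mul (isHomogeneous_X 𝕜 a)
          rwa [zero_add] at this
        have h3 : aeval y' (X j - C (c j) * X a : MvPolynomial (Fin (n + 1)) 𝕜) = 0 := by
          rw [map_sub, map_mul, aeval_X, aeval_X, aeval_C, hya, mul_one, hc, sub_self]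
        have h4 := (hKm _).1 (hPK ((hmem _ ⟨1, h2⟩).1 h3))
        rw [map_sub, map_mul, aeval_X, aeval_X, aeval_C, sub_eq_zero] at h4
        rw [h4, mul_comm]
      obtain ⟨e, he⟩ := hG₀
      have h5 : aeval y G₀ = y a ^ e * aeval (fun j => algebraMap 𝕜 L (c j)) G₀ := by
        rw [← comp_scale he]
        congr 2
        funext j
        exact hyc j
      rw [hG₀y] at h5
      have h6 : aeval (fun j => algebraMap 𝕜 L (c j)) G₀ = 0 := by
        rcases mul_eq_zero.1 h5.symm with h | h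
        · exact absurd h (pow_ne_zero e ha)
        · exact h
      have h7 : algebraMap 𝕜 L (eval c G₀) = 0 := by
        rw [← h6]
        have := MvPolynomial.aeval_algebraMap_apply L c G₀
        rw [← coe_aeval_eq_eval]
        exact this.symm
      have h8 : eval c G₀ = 0 := (algebraMap 𝕜 L).injective (by rw [h7, map_zero])
      apply hG₀P
      rw [← hmem _ ⟨e, he⟩]
      have h9 : y' = fun j => algebraMap 𝕜 L' (c j) := funext fun j => (hc j).symm
      have h10 := MvPolynomial.aeval_algebraMap_apply L' c G₀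
      rw [h9]
      refine h10.trans ?_
      have h11 : aeval c G₀ = 0 := by
        rw [← h8, ← coe_aeval_eq_eval]
        rfl
      rw [h11, map_zero]
    · intro G hG hIG
      rw [hmem G hG]
      apply hPm.1.2
      rw [hJ]
      exact Ideal.subset_span ⟨hG, hIG⟩
    · intro G hG h0
      exact (hKm G).1 (hPK ((hmem G hG).1 h0))
    · intro h0
      exact hG₀P ((hmem _ hG₀).1 h0)
    · intro h0
      exact hHP ((hmem _ hHF).1 h0)
    · intro G hG h0
      exact hGH G hG ((hmem G hG).1 h0)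

end Pool.Agent.U207.QK

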