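import Mathlib
import Pool.Agent.W602.GT.SpDefs

/-!
Closed subsets of projective spaces over a field `k`, by their forms and by the generic points of their
irreducible subsets: definitions.
-/

set_option autoImplicit false

namespace Pool.Agent.U207.QK

open MvPolynomial
open Pool.Agent.W602.GT (SubVar GeneralType IsForm coords)

variable {k : Type} [Field k] {n : ℕ} {L : Type} [Field L] [Algebra k L]

/-- all forms vanishing at the point `y` with coordinates in a field extension: the equations of
the irreducible closed set with generic point `y` -/
def Eqs (y : Fin (n + 1) → L) : Set (MvPolynomial (Fin (n + 1)) k) := {p | IsForm p ∧ aeval y p = 0}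

/-- The irreducible closed set with generic point `y` is a component of the closed set on which
exactly the forms in `I` vanish: all of them vanish at `y`, and for some form `H` with `H(y) ≠ 0` all
products `G H` with `G(y) = 0` are in `I`. -/
def Component (I : MvPolynomial (Fin (n + 1)) k → Prop) (y : Fin (n + 1) → L) : Prop :=
  (∀ G, IsForm G → I G → aeval y G = 0) ∧
    ∃ H, IsForm H ∧ aeval y H ≠ 0 ∧ ∀ G, IsForm G → aeval y G = 0 → I (G * H)

end Pool.Agent.U207.QK
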