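import Pool.Agent.U207.QK.Gd
import Pool.Agent.N254.SQ.Fin

/-!
Project QK (helper207), part E: sheets over arbitrary fields, entire curves.
-/

set_option autoImplicit false

namespace Pool.Agent.U207.QK

open MvPolynomial Metric Filter Topology
open Pool.Agent.N254.SQ (Mon ver Extends ver_prop eval_scale leaves ver_smul ver_ne_zero)
open Pool.Agent.W602.GT (SubVar GeneralType coords)
open Pool.Agent.U207.QC (hI xI pt pt_h pt_x pt_hI pt_ne idx_cases GoodC DiscIn)

section sheet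

variable {K : Type} [Field K] {N c : ℕ} {A : Type} [CommRing A] [Algebra K A]

/-- the point on the sheet given by the linear forms `ℓ` -/
noncomputable def elK (ℓ : Fin c → MvPolynomial (Fin (N + 1)) K) (y : Fin (N + 1) → A) :
    Fin (N + c + 1) → A := pt y fun i => aeval y (ℓ i)

variable {ℓ : Fin c → MvPolynomial (Fin (N + 1)) K}

theorem elK_h (y : Fin (N + 1) → A) (j : Fin (N + 1)) : elK ℓ y (hI N c j) = y j := pt_h _ _ j

theorem elK_x (y : Fin (N + 1) → A) (i : Fin c) : elK ℓ y (xI N c i) = aeval y (ℓ i) := pt_x _ _ i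

theorem elK_hI (y : Fin (N + 1) → A) : elK ℓ y ∘ hI N c = y := pt_hI _ _

theorem elK_ne {y : Fin (N + 1) → A} (hy : y ≠ 0) : elK ℓ y ≠ 0 := pt_ne hy _

theorem aeval_scaleK {M e : ℕ} {F : MvPolynomial (Fin (M + 1)) K} (hF : F.IsHomogeneous e)
    (s : A) (x : Fin (M + 1) → A) : aeval (s • x) F = s ^ e * aeval x F := by
  rw [aeval_def, aeval_def, eval₂_eq', eval₂_eq', Finset.mul_sum]
  apply Finset.sum_congr rfl
  intro α hα
  have h1 : ∑ j, α j = e := by
    have h2 := hF (mem_support_iff.1 hα)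
    rw [Finsupp.weight_apply, Finsupp.sum_fintype _ _ (fun _ => by simp)] at h2
    simpa using h2
  simp only [Pi.smul_apply, smul_eq_mul, mul_pow, Finset.prod_mul_distrib]
  rw [Finset.prod_pow_eq_pow_sum, h1]
  ring

theorem elK_smul (hl : ∀ i, (ℓ i).IsHomogeneous 1) (s : A) (y : Fin (N + 1) → A) :
    elK ℓ (s • y) = s • elK ℓ y := by
  funext l
  rcases idx_cases l with ⟨j, rfl⟩ | ⟨i, rfl⟩
  · rw [elK_h, Pi.smul_apply, Pi.smul_apply, elK_h]
  · rw [elK_x, Pi.smul_apply, elK_x, aeval_scaleK (hl i), pow_one, smul_eq_mul]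

end sheet

/-- the sheet is contained in the cover -/
theorem Cv.mem {K : Type} [Field K] {n N d c : ℕ} {m : Fin (N + 1) → Fin (n + 1) → ℕ} {κ : Type}
    {F : κ → MvPolynomial (Fin (n + 1)) K} {P ℓ : Fin c → MvPolynomial (Fin (N + 1)) K}
    (h : Cv n N d c m F P ℓ) {Ω : Type} [Field Ω] [Algebra K Ω] {x : Fin (n + 1) → Ω}
    (hx : ∀ k, aeval x (F k) = 0) (i : Fin c) :
    aeval (elK ℓ (ver m x)) (coverForm P i) = 0 := by
  rw [aeval_cover, elK_x, elK_hI, h.sub Ω x hx i, sub_self]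

/-! ### entire curves -/

theorem ver_zero_ne {n N d : ℕ} {m : Fin (N + 1) → Fin (n + 1) → ℕ} (hm : Mon n N d m)
    (hd : 1 ≤ d) {x : Fin (n + 1) → ℂ} (h : ver m x ≠ 0) : x ≠ 0 := by
  rintro rfl
  apply h
  funext b
  obtain ⟨j, hj⟩ : ∃ j, m b j ≠ 0 := by
    by_contra hcon
    push Not at hcon
    have := hm.deg b
    rw [Finset.sum_eq_zero fun j _ => hcon j] at this
    omega
  exact Finset.prod_eq_zero (Finset.mem_univ j) (by simp [hj])

/-- entire curves in the cone over the Veronese image of a variety -/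
theorem lift_curve {n N d : ℕ} {m : Fin (N + 1) → Fin (n + 1) → ℕ} (hm : Mon n N d m)
    (hd : 1 ≤ d) {κ : Type} {F : κ → MvPolynomial (Fin (n + 1)) ℂ}
    (hF : ∀ k, ∃ e, (F k).IsHomogeneous e) {G : ℂ → Fin (N + 1) → ℂ} (hG : Differentiable ℂ G)
    (hG0 : ∀ z, G z ≠ 0)
    (h : ∀ z, ∃ x : Fin (n + 1) → ℂ, x ≠ 0 ∧ (∀ k, eval x (F k) = 0) ∧ G z = ver m x) :
    ∃ f : ℂ → Fin (n + 1) → ℂ, Differentiable ℂ f ∧ (∀ z, f z ≠ 0) ∧
      (∀ z k, eval (f z) (F k) = 0) ∧ ∀ z, G z = ver m (f z) := by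
  obtain ⟨f, hf, hGf⟩ := leaves.lift n N d m hm hd ℂ G hG fun z => by
    obtain ⟨x, hx, -, hxG⟩ := h z
    exact ⟨x, hx, hxG⟩
  have hf0 : ∀ z, f z ≠ 0 := fun z => ver_zero_ne hm hd (by rw [← hGf]; exact hG0 z)
  refine ⟨f, hf, hf0, fun z k => ?_, hGf⟩
  obtain ⟨x, hx, hxP, hxG⟩ := h z
  obtain ⟨c, hc⟩ := ver_prop (x := x) (c := 1) hm hd (hf0 z) (by rw [one_smul, ← hGf z, hxG])
  obtain ⟨e, he⟩ := hF k
  rw [hc, eval_scale he, hxP k, mul_zero]

/-- the projection of a nonconstant curve in the cover is not constant -/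
theorem curve_const {N c : ℕ} {P : Fin c → MvPolynomial (Fin (N + 1)) ℂ}
    (hP : ∀ i, (P i).IsHomogeneous 2) {f : ℂ → Fin (N + c + 1) → ℂ} (hf : Differentiable ℂ f)
    (hf0 : ∀ z, f z ≠ 0) (hfP : ∀ z i, eval (f z) (coverForm P i) = 0)
    (h : ∀ z w, ∃ s : ℂ, f w ∘ hI N c = s • (f z ∘ hI N c)) :
    ∀ z w, ∃ s : ℂ, f w = s • f z := by
  -- the squares of the coordinates have constant ratios
  obtain ⟨z0, hz0⟩ : ∃ z0, f z0 ≠ 0 := ⟨0, hf0 0⟩
  have hb0 : f z0 ∘ hI N c ≠ 0 := base_ne hP hz0 fun i => hfP z0 i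
  obtain ⟨j0, hj0⟩ : ∃ j, f z0 (hI N c j) ≠ 0 := by
    by_contra hcon
    push Not at hcon
    exact hb0 (funext hcon)
  have hfd : ∀ l, Differentiable ℂ fun z => f z l := fun l => (differentiable_pi.1 hf) l
  -- the factor
  have hs : ∀ z, f z ∘ hI N c = (f z (hI N c j0) / f z0 (hI N c j0)) • (f z0 ∘ hI N c) := by
    intro z
    obtain ⟨s, hs⟩ := h z0 z
    have h1 : f z (hI N c j0) = s * f z0 (hI N c j0) := congrFun hs j0
    rw [h1, mul_div_cancel_right₀ _ hj0]
    exact hs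
  have hsq : ∀ z i, f z (xI N c i) ^ 2 * f z0 (hI N c j0) ^ 2 =
      f z0 (xI N c i) ^ 2 * f z (hI N c j0) ^ 2 := by
    intro z i
    have h1 : eval (f z) (coverForm P i) = 0 := hfP z i
    have h2 : eval (f z0) (coverForm P i) = 0 := hfP z0 i
    have h1' : f z (xI N c i) ^ 2 = eval (f z ∘ hI N c) (P i) := by
      have h3 : eval (f z) (coverForm P i) = _ := Pool.Agent.U207.QC.eval_cover (f z) i
      rw [h1] at h3
      exact (sub_eq_zero.1 h3.symm)
    have h2' : f z0 (xI N c i) ^ 2 = eval (f z0 ∘ hI N c) (P i) := by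
      have h3 : eval (f z0) (coverForm P i) = _ := Pool.Agent.U207.QC.eval_cover (f z0) i
      rw [h2] at h3
      exact (sub_eq_zero.1 h3.symm)
    rw [h1', h2', hs z, eval_scale (hP i)]
    field_simp
  have hlin : ∀ i, (∀ z, f z (xI N c i) * f z0 (hI N c j0) =
      f z0 (xI N c i) * f z (hI N c j0)) ∨ (∀ z, f z (xI N c i) * f z0 (hI N c j0) =
      - (f z0 (xI N c i) * f z (hI N c j0))) := by
    intro i
    have hA : AnalyticOnNhd ℂ (fun z => f z (xI N c i) * f z0 (hI N c j0) -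
        f z0 (xI N c i) * f z (hI N c j0)) Set.univ :=
      (((hfd _).mul_const _).sub ((hfd _).const_mul _)).differentiableOn.analyticOnNhd isOpen_univ
    have hB : AnalyticOnNhd ℂ (fun z => f z (xI N c i) * f z0 (hI N c j0) +
        f z0 (xI N c i) * f z (hI N c j0)) Set.univ :=
      (((hfd _).mul_const _).add ((hfd _).const_mul _)).differentiableOn.analyticOnNhd isOpen_univ
    have hAB : (∀ z, (f z (xI N c i) * f z0 (hI N c j0) -
        f z0 (xI N c i) * f z (hI N c j0)) * (f z (xI N c i) * f z0 (hI N c j0) +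
        f z0 (xI N c i) * f z (hI N c j0)) = 0) := by
      intro z
      linear_combination hsq z i
    rcases AnalyticOnNhd.eq_zero_or_eq_zero_of_mul_eq_zero hA hB
      (fun z _ => hAB z) isPreconnected_univ with h1 | h1
    · left
      intro z
      exact sub_eq_zero.1 (h1 z (Set.mem_univ z))
    · right
      intro z
      exact eq_neg_of_add_eq_zero_left (h1 z (Set.mem_univ z))
  intro z w
  have hne : ∀ z, f z (hI N c j0) = 0 → f z = 0 := by
    intro z hz
    by_contra hcon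
    apply base_ne hP hcon fun i => hfP z i
    rw [hs z, hz, zero_div, zero_smul]
  have hz : f z (hI N c j0) ≠ 0 := fun h1 => hf0 z (hne z h1)
  · refine ⟨f w (hI N c j0) / f z (hI N c j0), funext fun l => ?_⟩
    rw [Pi.smul_apply, smul_eq_mul, div_mul_eq_mul_div, eq_div_iff hz]
    rcases idx_cases l with ⟨j, rfl⟩ | ⟨i, rfl⟩
    · have h1 := congrFun (hs z) j
      have h2 := congrFun (hs w) j
      simp only [Function.comp, Pi.smul_apply, smul_eq_mul] at h1 h2
      rw [h1, h2]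
      ring
    · rcases hlin i with h1 | h1
      · have h2 := h1 z
        have h3 := h1 w
        apply mul_right_cancel₀ hj0
        linear_combination f z (hI N c j0) * h3 - f w (hI N c j0) * h2
      · have h2 := h1 z
        have h3 := h1 w
        apply mul_right_cancel₀ hj0
        linear_combination f z (hI N c j0) * h3 - f w (hI N c j0) * h2

end Pool.Agent.U207.QK
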