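import Pool.Agent.U207.QK.Spc
import Pool.Agent.U207.QC.Bas
import Pool.Agent.N254.SQ.Ver
import Pool.Agent.N254.SQ.Td
import Pool.Agent.N254.SQ.Geo

/-!
Project QK (helper207), part B: integral parameters of smooth covers over arbitrary fields of
characteristic zero.
-/

set_option autoImplicit false

namespace Pool.Agent.U207.QK

open MvPolynomial
open Pool.Agent.N254.SQ (Mon ver)
open Pool.Agent.U207.QC (pv pd red_basis)

/-- quadratic forms `b` over `K` which define the Veronese image of the closed set `F = 0` -/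
structure Bs {K : Type} [Field K] (n N d : ℕ) (m : Fin (N + 1) → Fin (n + 1) → ℕ) {κ : Type}
    (F : κ → MvPolynomial (Fin (n + 1)) K) {r : ℕ} (b : Fin r → MvPolynomial (Fin (N + 1)) K) :
    Prop where
  hr : r ≤ (N + 1) ^ 2
  hom : ∀ i, (b i).IsHomogeneous 2
  rank : ∀ (Ω : Type) [Field Ω] [Algebra K Ω] (x : Fin (N + 1) → Ω), x ≠ 0 →
    (∀ i, aeval x (b i) = 0) →
    n ≤ (Matrix.of fun (i : Fin r) (j : Fin (N + 1)) => (aeval x (pderiv j (b i)) : Ω)).rank
  tr : ∀ (Ω : Type) [Field Ω] [Algebra K Ω] (x : Fin (N + 1) → Ω) (a0 : Fin (N + 1)),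
    x a0 = 1 → (∀ i, aeval x (b i) = 0) → Algebra.trdeg K (Algebra.adjoin K (Set.range x)) ≤ n
  sub : ∀ (Ω : Type) [Field Ω] [Algebra K Ω] (x : Fin (n + 1) → Ω), (∀ k, aeval x (F k) = 0) →
    ∀ i, aeval (ver m x) (b i) = 0
  cone : ∀ (Ω : Type) [Field Ω] [Algebra K Ω] (y : Fin (N + 1) → Ω), y ≠ 0 →
    (∀ i, aeval y (b i) = 0) → ∃ (x : Fin (n + 1) → Ω) (c₀ : Ω), x ≠ 0 ∧ c₀ ≠ 0 ∧
      (∀ k, aeval x (F k) = 0) ∧ y = c₀ • ver m x

theorem exists_bs {K : Type} [Field K] [CharZero K] {n N d : ℕ}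
    {m : Fin (N + 1) → Fin (n + 1) → ℕ} (hm : Mon n N d m) (hd : 1 ≤ d) (hN : 2 * n < N)
    {κ : Type} [Finite κ] {F : κ → MvPolynomial (Fin (n + 1)) K}
    (hF : ∀ k, ∃ e ≤ d, (F k).IsHomogeneous e) :
    ∃ (r : ℕ) (b : Fin r → MvPolynomial (Fin (N + 1)) K), Bs n N d m F b := by
  choose g hg hFg using hF
  obtain ⟨ι, iF, q, hq, hq1, hq2⟩ := Pool.Agent.N254.SQ.t_ver K n N d m hm hd κ F g hFg hg
  obtain ⟨r, b, hr, hb, hqb, hrank⟩ := red_basis q hq
  refine ⟨r, b, hr, hb, ?_, ?_, ?_, ?_⟩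
  · intro Ω _ _ x hx hxb
    obtain ⟨h1, -⟩ := hq2 Ω x hx ((hqb Ω x).2 hxb)
    have h2 := hrank Ω x
    omega
  · intro Ω _ _ x a0 hxa hxb
    have hx : x ≠ 0 := by
      intro h0
      rw [h0] at hxa
      exact zero_ne_one hxa
    obtain ⟨-, z, a, b', hza, hxb', hxz, -⟩ := hq2 Ω x hx ((hqb Ω x).2 hxb)
    refine Pool.Agent.N254.SQ.td_scale Pool.Agent.N254.SQ.t_td z a hza (ver m z) x
      (fun c => ⟨∏ j, X j ^ m c j, ?_⟩) a0 (fun c => ?_)
    · rw [map_prod]
      unfold ver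
      exact Finset.prod_congr rfl fun j _ => by rw [map_pow, aeval_X]
    · have h1 := hxz a0
      rw [hxa] at h1
      have h2 : ver m z a0 ≠ 0 := by
        intro h0
        rw [h0, mul_zero] at h1
        exact one_ne_zero h1
      rw [hxz c, eq_div_iff h2]
      linear_combination (- ver m z c) * h1
  · intro Ω _ _ x hx i
    exact (hqb Ω (ver m x)).1 (hq1 Ω x hx) i
  · intro Ω _ _ y hy hyt
    obtain ⟨-, z, a, b', hza, hyb', hyz, hzF⟩ := hq2 Ω y hy ((hqb Ω y).2 hyt)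
    refine ⟨z, y b', ?_, hyb', hzF, funext hyz⟩
    intro h0
    rw [h0] at hza
    exact zero_ne_one hza

/-- multiples of the quadratic forms -/
theorem bs_scale {K : Type} [Field K] {n N d : ℕ} {m : Fin (N + 1) → Fin (n + 1) → ℕ}
    {κ : Type} {F : κ → MvPolynomial (Fin (n + 1)) K} {r : ℕ}
    {b : Fin r → MvPolynomial (Fin (N + 1)) K} (hb : Bs n N d m F b) {u : Fin r → K}
    (hu : ∀ i, u i ≠ 0) : Bs n N d m F fun i => C (u i) * b i := by
  have hz : ∀ (Ω : Type) [Field Ω] [Algebra K Ω] (x : Fin (N + 1) → Ω),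
      (∀ i, aeval x (C (u i) * b i) = 0) ↔ ∀ i, aeval x (b i) = 0 := by
    intro Ω _ _ x
    refine forall_congr' fun i => ?_
    rw [map_mul, aeval_C, mul_eq_zero]
    have : algebraMap K Ω (u i) ≠ 0 := (map_ne_zero _).2 (hu i)
    tauto
  refine ⟨hb.hr, ?_, ?_, ?_, ?_, ?_⟩
  · intro i
    have := (isHomogeneous_C (Fin (N + 1)) (u i)).mul (hb.hom i)
    rwa [zero_add] at this
  · intro Ω _ _ x hx hxb
    have h1 := hb.rank Ω x hx ((hz Ω x).1 hxb)
    refine h1.trans ?_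
    have h2 : (Matrix.of fun (i : Fin r) (j : Fin (N + 1)) => (aeval x (pderiv j (b i)) : Ω)) =
        Matrix.diagonal (fun i => (algebraMap K Ω (u i))⁻¹) *
        (Matrix.of fun (i : Fin r) (j : Fin (N + 1)) =>
          (aeval x (pderiv j (C (u i) * b i)) : Ω)) := by
      ext i j
      rw [Matrix.diagonal_mul, Matrix.of_apply, Matrix.of_apply, pderiv_C_mul, map_mul, aeval_C,
        inv_mul_cancel_left₀ ((map_ne_zero _).2 (hu i))]
    rw [h2]
    exact Matrix.rank_mul_le_right _ _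
  · intro Ω _ _ x a0 h1 h2
    exact hb.tr Ω x a0 h1 ((hz Ω x).1 h2)
  · intro Ω _ _ x hx
    exact (hz Ω _).2 (hb.sub Ω x hx)
  · intro Ω _ _ y hy h
    exact hb.cone Ω y hy ((hz Ω y).1 h)

/-- **Integral parameters.** -/
theorem exists_params {K : Type} [Field K] [CharZero K] {n N d c s : ℕ}
    {m : Fin (N + 1) → Fin (n + 1) → ℕ} {κ : Type} {F : κ → MvPolynomial (Fin (n + 1)) K} {r : ℕ}
    {b : Fin r → MvPolynomial (Fin (N + 1)) K} (hb : Bs n N d m F b) (B k : ℕ) (hk : 1 ≤ k)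
    (hs : N + 1 ≤ s) (hrs : r ≤ s) :
    ∃ (a : Fin c → ℤ) (C : Fin s × Fin r → ℤ), Function.Injective a ∧
      (∀ (Ω : Type) [Field Ω] [Algebra K Ω] (v : Fin r → Ω),
        (∀ t, ∑ l, ((C (t, l) : ℤ) : Ω) * v l = 0) → v = 0) ∧
      ∀ (Ω : Type) [Field Ω] [Algebra K Ω] (h : Fin (N + 1) → Ω), h ≠ 0 → ∀ ν : Fin c → Ω,
          (∀ i, ν i * pv B k b (fun t => ((C t : ℤ) : Ω)) ((a i : ℤ) : Ω) h = 0) →
          (∀ j, ∑ i, ν i * pd B k b (fun t => ((C t : ℤ) : Ω)) ((a i : ℤ) : Ω) h j = 0) →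
            ν = 0 := by
  classical
  obtain ⟨Δ, hΔ, hΔ2⟩ := smo_special (c := c) (B := B) hb.hom hk hs hb.rank hb.tr
  -- the determinant
  let e : Fin r ↪ Fin s := Fin.castLEEmb hrs
  let emb : Fin r × Fin r → Fin c ⊕ (Fin s × Fin r) := fun p => Sum.inr (e p.1, p.2)
  have hemb : Function.Injective emb := by
    rintro ⟨i, j⟩ ⟨i', j'⟩ h
    have h0 : (e i, j) = (e i', j') := Sum.inr_injective h
    exact Prod.ext (e.injective (congrArg Prod.fst h0)) ((Prod.ext_iff.1 h0).2)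
  obtain ⟨D, hD⟩ : ∃ D : MvPolynomial (Fin c ⊕ (Fin s × Fin r)) K,
      D = rename emb (Matrix.mvPolynomialX (Fin r) (Fin r) K).det := ⟨_, rfl⟩
  have hD0 : D ≠ 0 := by
    rw [hD]
    intro h0
    exact Matrix.det_mvPolynomialX_ne_zero (Fin r) K (rename_injective _ hemb (by
      rw [h0, map_zero]))
  -- the differences
  obtain ⟨E, hE⟩ : ∃ E : MvPolynomial (Fin c ⊕ (Fin s × Fin r)) K,
      E = ∏ p ∈ (Finset.univ : Finset (Fin c × Fin c)).filter (fun p => p.1 ≠ p.2),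
        (X (Sum.inl p.1) - X (Sum.inl p.2)) := ⟨_, rfl⟩
  have hE0 : E ≠ 0 := by
    rw [hE, Finset.prod_ne_zero_iff]
    intro p hp h0
    have hp' := (Finset.mem_filter.1 hp).2
    exact hp' (Sum.inl_injective (X_injective (sub_eq_zero.1 h0)))
  obtain ⟨p, hp⟩ : ∃ p : Fin c ⊕ (Fin s × Fin r) → ℤ,
      eval (fun z => ((p z : ℤ) : K)) (Δ * D * E) ≠ 0 := by
    by_contra hcon
    push Not at hcon
    have h0 : Δ * D * E = 0 := by
      refine funext_set (fun _ => Set.range fun z : ℤ => (z : K))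
        (fun _ => Set.infinite_range_of_injective Int.cast_injective) fun x hx => ?_
      have hx' : ∀ z, ∃ w : ℤ, (w : K) = x z := fun z => hx z (Set.mem_univ z)
      choose p hp using hx'
      rw [map_zero, ← hcon p]
      congr 2
      funext z
      exact (hp z).symm
    exact mul_ne_zero (mul_ne_zero hΔ hD0) hE0 h0
  rw [map_mul, map_mul] at hp
  have hpΔ := left_ne_zero_of_mul (left_ne_zero_of_mul hp)
  have hpD := right_ne_zero_of_mul (left_ne_zero_of_mul hp)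
  have hpE := right_ne_zero_of_mul hp
  have hΩ : ∀ (Ω : Type) [Field Ω] [Algebra K Ω] (G : MvPolynomial (Fin c ⊕ (Fin s × Fin r)) K),
      aeval (fun z => ((p z : ℤ) : Ω)) G = algebraMap K Ω (eval (fun z => ((p z : ℤ) : K)) G) := by
    intro Ω _ _ G
    have h1 := MvPolynomial.aeval_algebraMap_apply Ω (fun z => ((p z : ℤ) : K)) G
    rw [← coe_aeval_eq_eval]
    have h2 : (fun z => ((p z : ℤ) : Ω)) = (fun z => algebraMap K Ω ((p z : ℤ) : K)) := by
      funext z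
      rw [map_intCast]
    rw [h2]
    exact h1
  refine ⟨fun i => p (Sum.inl i), fun t => p (Sum.inr t), ?_, ?_, ?_⟩
  · intro i j hij
    by_contra hne
    apply hpE
    rw [hE, map_prod]
    refine Finset.prod_eq_zero (Finset.mem_filter.2 ⟨Finset.mem_univ (i, j), hne⟩) ?_
    rw [map_sub, eval_X, eval_X]
    simp only at hij
    rw [hij, sub_self]
  · intro Ω _ _ v hv
    set M : Matrix (Fin r) (Fin r) Ω := Matrix.of fun i l => ((p (Sum.inr (e i, l)) : ℤ) : Ω) with hM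
    have hdet : M.det ≠ 0 := by
      have h1 : aeval (fun z => ((p z : ℤ) : Ω)) D = M.det := by
        rw [hD, aeval_rename, AlgHom.map_det]
        congr 1
        ext i j
        rw [AlgHom.mapMatrix_apply, Matrix.map_apply, Matrix.mvPolynomialX_apply, aeval_X]
        rfl
      rw [← h1, hΩ]
      exact (map_ne_zero _).2 hpD
    refine Matrix.eq_zero_of_mulVec_eq_zero hdet ?_
    funext i
    exact hv (e i)
  · intro Ω _ _ h hh ν h1 h2
    refine hΔ2 Ω (fun z => ((p z : ℤ) : Ω)) ?_ h hh ν h1 h2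
    rw [hΩ]
    exact (map_ne_zero _).2 hpΔ

end Pool.Agent.U207.QK
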