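import Pool.Agent.U207.QK.Defs
import Pool.Agent.U207.QK.Par
import Pool.Agent.U207.QC.Ex

/-!
Project QK (helper207), part C: covers over arbitrary fields of characteristic zero.
-/

set_option autoImplicit false

namespace Pool.Agent.U207.QK

open MvPolynomial
open Pool.Agent.N254.SQ (Mon ver)
open Pool.Agent.U207.QC (hI xI pf pf_hom pv pd idx_cases hI_inj xI_inj hI_ne_xI aeval_smul_two cN)

/-! ### forms over rings -/

section ring

variable {R R' : Type} [CommRing R] [CommRing R'] {N s c r : ℕ}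

/-- the linear form `Σ_j a^j h_j` -/
noncomputable def lk (a : R) : MvPolynomial (Fin (N + 1)) R :=
  ∑ j : Fin (N + 1), C (a ^ (j : ℕ)) * X j

/-- the quadratic form with values `ℓ^2 + Σ_t a^(B + k t) Z_t` -/
noncomputable def pk (B k : ℕ) (Z : Fin s → MvPolynomial (Fin (N + 1)) R) (a : R) :
    MvPolynomial (Fin (N + 1)) R :=
  (lk a) ^ 2 + ∑ t : Fin s, C (a ^ (B + k * (t : ℕ))) * Z t

/-- the forms `Σ_l C(t,l) b_l` -/
noncomputable def zk (b : Fin r → MvPolynomial (Fin (N + 1)) R) (C' : Fin s × Fin r → ℤ)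
    (t : Fin s) : MvPolynomial (Fin (N + 1)) R := ∑ l, C ((C' (t, l) : ℤ) : R) * b l

theorem lk_hom (a : R) : (lk a : MvPolynomial (Fin (N + 1)) R).IsHomogeneous 1 := by
  unfold lk
  refine IsHomogeneous.sum _ _ _ fun j _ => ?_
  have := (isHomogeneous_C (Fin (N + 1)) (a ^ (j : ℕ))).mul (isHomogeneous_X R j)
  rwa [zero_add] at this

theorem zk_hom {b : Fin r → MvPolynomial (Fin (N + 1)) R} (hb : ∀ l, (b l).IsHomogeneous 2)
    (C' : Fin s × Fin r → ℤ) (t : Fin s) : (zk b C' t).IsHomogeneous 2 := by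
  unfold zk
  refine IsHomogeneous.sum _ _ _ fun l _ => ?_
  have := (isHomogeneous_C (Fin (N + 1)) ((C' (t, l) : ℤ) : R)).mul (hb l)
  rwa [zero_add] at this

theorem pk_hom (B k : ℕ) {Z : Fin s → MvPolynomial (Fin (N + 1)) R}
    (hZ : ∀ t, (Z t).IsHomogeneous 2) (a : R) : (pk B k Z a).IsHomogeneous 2 := by
  unfold pk
  refine IsHomogeneous.add ((lk_hom a).pow 2) ?_
  refine IsHomogeneous.sum _ _ _ fun t _ => ?_
  have := (isHomogeneous_C (Fin (N + 1)) (a ^ (B + k * (t : ℕ)))).mul (hZ t)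
  rwa [zero_add] at this

theorem map_lk (φ : R →+* R') (a : R) :
    map φ (lk a : MvPolynomial (Fin (N + 1)) R) = lk (φ a) := by
  unfold lk
  simp only [map_sum, map_mul, map_C, map_X, map_pow]

theorem map_pk (φ : R →+* R') (B k : ℕ) (Z : Fin s → MvPolynomial (Fin (N + 1)) R) (a : R) :
    map φ (pk B k Z a) = pk B k (fun t => map φ (Z t)) (φ a) := by
  unfold pk
  simp only [map_add, map_sum, map_mul, map_C, map_pow, map_lk]

theorem map_zk (φ : R →+* R') (b : Fin r → MvPolynomial (Fin (N + 1)) R)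
    (C' : Fin s × Fin r → ℤ) (t : Fin s) : map φ (zk b C' t) = zk (fun l => map φ (b l)) C' t := by
  unfold zk
  simp only [map_sum, map_mul, map_C, map_intCast]

theorem map_cover (φ : R →+* R') (P : Fin c → MvPolynomial (Fin (N + 1)) R) (i : Fin c) :
    map φ (coverForm P i) = coverForm (fun i => map φ (P i)) i := by
  unfold coverForm
  rw [map_sub, map_pow, map_X, map_rename]

theorem cover_hom {P : Fin c → MvPolynomial (Fin (N + 1)) R} (hP : ∀ i, (P i).IsHomogeneous 2)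
    (i : Fin c) : (coverForm P i).IsHomogeneous 2 :=
  ((isHomogeneous_X R _).pow 2).sub ((hP i).rename_isHomogeneous)

theorem pk_eq {K : Type} [Field K] (B k : ℕ) (Z : Fin s → MvPolynomial (Fin (N + 1)) K) (a : K) :
    pk B k Z a = pf B k Z a := rfl

theorem pk_sub {A : Type} [CommRing A] [Algebra R A] {B k : ℕ}
    {Z : Fin s → MvPolynomial (Fin (N + 1)) R} {a : R}
    {y : Fin (N + 1) → A} (h : ∀ t, aeval y (Z t) = 0) :
    aeval y (pk B k Z a) = aeval y (lk a) ^ 2 := by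
  unfold pk
  have h1 : aeval y (∑ t : Fin s, C (a ^ (B + k * (t : ℕ))) * Z t) = 0 := by
    rw [map_sum]
    exact Finset.sum_eq_zero fun t _ => by rw [map_mul, h t, mul_zero]
  rw [map_add, h1, add_zero, map_pow]

end ring

section eqs

variable {K : Type} [Field K] {N c : ℕ} {P : Fin c → MvPolynomial (Fin (N + 1)) K}

theorem aeval_cover {Ω : Type} [Field Ω] [Algebra K Ω] (y : Fin (N + c + 1) → Ω) (i : Fin c) :
    aeval y (coverForm P i) = y (xI N c i) ^ 2 - aeval (y ∘ hI N c) (P i) := by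
  unfold coverForm
  rw [map_sub, map_pow, aeval_X, aeval_rename]

/-- the first coordinates of a point of `Y` are not all zero -/
theorem base_ne {Ω : Type} [Field Ω] [Algebra K Ω] (hP : ∀ i, (P i).IsHomogeneous 2)
    {y : Fin (N + c + 1) → Ω} (hy : y ≠ 0) (h : ∀ i, aeval y (coverForm P i) = 0) :
    y ∘ hI N c ≠ 0 := by
  intro h0
  apply hy
  funext l
  rcases idx_cases l with ⟨j, rfl⟩ | ⟨i, rfl⟩
  · exact congrFun h0 j
  · have h1 := h i
    rw [aeval_cover, h0] at h1
    have h2 : aeval (0 : Fin (N + 1) → Ω) (P i) = 0 := by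
      have h3 := aeval_smul_two (hP i) (0 : Ω) (0 : Fin (N + 1) → Ω)
      rw [zero_pow (by norm_num), zero_mul] at h3
      convert h3 using 2
      simp
      rfl
    rw [h2, sub_zero] at h1
    exact eq_zero_of_pow_eq_zero h1

end eqs

section smooth

variable {K : Type} [Field K] [CharZero K] {N s c r : ℕ}

theorem zk_aeval {Ω : Type} [Field Ω] [Algebra K Ω]
    (b : Fin r → MvPolynomial (Fin (N + 1)) K) (C' : Fin s × Fin r → ℤ) (t : Fin s)
    (h : Fin (N + 1) → Ω) :
    aeval h (zk b C' t) = ∑ l, ((C' (t, l) : ℤ) : Ω) * aeval h (b l) := by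
  unfold zk
  rw [map_sum]
  refine Finset.sum_congr rfl fun l _ => ?_
  rw [map_mul, aeval_C, map_intCast]

theorem pk_aeval {Ω : Type} [Field Ω] [Algebra K Ω] (B k : ℕ)
    (b : Fin r → MvPolynomial (Fin (N + 1)) K) (C' : Fin s × Fin r → ℤ) (a : ℤ)
    (h : Fin (N + 1) → Ω) : aeval h (pk B k (zk b C') (a : K)) =
      pv B k b (fun t => ((C' t : ℤ) : Ω)) ((a : ℤ) : Ω) h := by
  unfold pk pv lk
  rw [map_add, map_pow, map_sum, map_sum]
  congr 1
  · congr 1
    exact Finset.sum_congr rfl fun j _ => by rw [map_mul, aeval_C, aeval_X, map_pow, map_intCast]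
  · refine Finset.sum_congr rfl fun t _ => ?_
    rw [map_mul, aeval_C, map_pow, map_intCast, zk_aeval]

theorem pk_pderiv {Ω : Type} [Field Ω] [Algebra K Ω] (B k : ℕ)
    (b : Fin r → MvPolynomial (Fin (N + 1)) K) (C' : Fin s × Fin r → ℤ) (a : ℤ)
    (h : Fin (N + 1) → Ω) (j : Fin (N + 1)) : aeval h (pderiv j (pk B k (zk b C') (a : K))) =
      pd B k b (fun t => ((C' t : ℤ) : Ω)) ((a : ℤ) : Ω) h j := by
  classical
  unfold pk pd lk
  rw [map_add, map_sum, map_add, map_sum]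
  congr 1
  · have hd : pderiv j (∑ i : Fin (N + 1), MvPolynomial.C ((a : K) ^ (i : ℕ)) * X i :
        MvPolynomial (Fin (N + 1)) K) = MvPolynomial.C ((a : K) ^ (j : ℕ)) := by
      rw [map_sum, Finset.sum_eq_single j]
      · rw [pderiv_C_mul, pderiv_X_self, mul_one]
      · intro i _ hi
        rw [pderiv_C_mul, pderiv_X_of_ne hi, mul_zero]
      · intro h
        exact absurd (Finset.mem_univ _) h
    rw [Derivation.leibniz_pow, hd]
    simp only [smul_eq_mul, nsmul_eq_mul, map_mul, map_pow, map_sum, aeval_C, aeval_X,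
      Nat.cast_ofNat, map_ofNat, map_intCast]
    norm_num
    ring
  · refine Finset.sum_congr rfl fun t _ => ?_
    rw [pderiv_C_mul, map_mul, aeval_C, map_pow, map_intCast]
    congr 1
    unfold zk
    rw [map_sum, map_sum]
    refine Finset.sum_congr rfl fun l _ => ?_
    rw [pderiv_C_mul, map_mul, aeval_C, map_intCast]

/-- **The cover is smooth.** -/
theorem cover_smooth {B k : ℕ} {b : Fin r → MvPolynomial (Fin (N + 1)) K}
    (hb : ∀ l, (b l).IsHomogeneous 2) {C' : Fin s × Fin r → ℤ} {a : Fin c → ℤ}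
    (hsm : ∀ (Ω : Type) [Field Ω] [Algebra K Ω] (h : Fin (N + 1) → Ω), h ≠ 0 → ∀ ν : Fin c → Ω,
          (∀ i, ν i * pv B k b (fun t => ((C' t : ℤ) : Ω)) ((a i : ℤ) : Ω) h = 0) →
          (∀ j, ∑ i, ν i * pd B k b (fun t => ((C' t : ℤ) : Ω)) ((a i : ℤ) : Ω) h j = 0) →
            ν = 0) :
    SmoothCover fun i => pk B k (zk b C') ((a i : ℤ) : K) := by
  classical
  intro Ω _ _ y hy hyP
  have hch : CharZero Ω := charZero_of_injective_algebraMap (algebraMap K Ω).injective
  have hP : ∀ i, (pk B k (zk b C') ((a i : ℤ) : K)).IsHomogeneous 2 := fun i =>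
    pk_hom B k (zk_hom hb C') _
  have hh := base_ne (P := fun i => pk B k (zk b C') ((a i : ℤ) : K)) hP hy hyP
  rw [Fintype.linearIndependent_iff]
  intro ν hν
  have hν' : ∀ l : Fin (N + c + 1), ∑ i, ν i * aeval y (pderiv l
      (coverForm (fun i => pk B k (zk b C') ((a i : ℤ) : K)) i)) = 0 := by
    intro l
    have h1 := congrFun hν l
    simpa [Finset.sum_apply] using h1
  have hx : ∀ i, ν i * y (xI N c i) = 0 := by
    intro i0
    have h1 := hν' (xI N c i0)
    have h2 : ∀ i, aeval y (pderiv (xI N c i0)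
        (coverForm (fun i => pk B k (zk b C') ((a i : ℤ) : K)) i)) =
        if i = i0 then 2 * y (xI N c i0) else 0 := by
      intro i
      unfold coverForm
      have h3 : pderiv (xI N c i0) (rename (hI N c) (pk B k (zk b C') ((a i : ℤ) : K))) = 0 := by
        apply pderiv_eq_zero_of_notMem_vars
        intro hmem
        obtain ⟨j, -, hj⟩ := Finset.mem_image.1 (vars_rename (hI N c) _ hmem)
        exact hI_ne_xI j i0 hj
      rw [map_sub, h3, sub_zero, Derivation.leibniz_pow]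
      by_cases hi : i = i0
      · subst hi
        rw [if_pos rfl, pderiv_X_self]
        simp
      · rw [if_neg hi, pderiv_X_of_ne fun h => hi (xI_inj h)]
        simp
    rw [Finset.sum_congr rfl fun i _ => by rw [h2 i]] at h1
    simp only [mul_ite, mul_zero, Finset.sum_ite_eq', Finset.mem_univ, if_true] at h1
    have h4 : 2 * (ν i0 * y (xI N c i0)) = 0 := by linear_combination h1
    exact (mul_eq_zero.1 h4).resolve_left two_ne_zero
  have hz := hsm Ω (y ∘ hI N c) hh ν (fun i => by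
      have h1 := hyP i
      rw [aeval_cover, sub_eq_zero] at h1
      rw [← pk_aeval, ← h1, pow_two, ← mul_assoc, hx i, zero_mul]) (fun j => by
      have h1 := hν' (hI N c j)
      have h2 : ∀ i, aeval y (pderiv (hI N c j)
          (coverForm (fun i => pk B k (zk b C') ((a i : ℤ) : K)) i)) =
          - pd B k b (fun t => ((C' t : ℤ) : Ω)) ((a i : ℤ) : Ω) (y ∘ hI N c) j := by
        intro i
        unfold coverForm
        rw [map_sub, pderiv_rename hI_inj, Derivation.leibniz_pow,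
          pderiv_X_of_ne fun h => hI_ne_xI j i h.symm, smul_zero, smul_zero, zero_sub, map_neg,
          aeval_rename, pk_pderiv]
      rw [Finset.sum_congr rfl fun i _ => by rw [h2 i, mul_neg], Finset.sum_neg_distrib,
        neg_eq_zero] at h1
      exact h1)
  exact fun i => congrFun hz i

end smooth

/-! ### the cover -/

/-- The cover `Y = {x_i ^ 2 = P_i(h)}` over `K` of the projective variety `F = 0`. -/
structure Cv {K : Type} [Field K] (n N d c : ℕ) (m : Fin (N + 1) → Fin (n + 1) → ℕ) {κ : Type}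
    (F : κ → MvPolynomial (Fin (n + 1)) K) (P ℓ : Fin c → MvPolynomial (Fin (N + 1)) K) : Prop where
  hn : 1 ≤ n
  hd : 3 ≤ d
  mon : Mon n N d m
  hN : 2 * n < N
  hF : ∀ k, ∃ e ≤ d, (F k).IsHomogeneous e
  homP : ∀ i, (P i).IsHomogeneous 2
  homL : ∀ i, (ℓ i).IsHomogeneous 1
  sub : ∀ (Ω : Type) [Field Ω] [Algebra K Ω] (x : Fin (n + 1) → Ω), (∀ k, aeval x (F k) = 0) →
    ∀ i, aeval (ver m x) (P i) = aeval (ver m x) (ℓ i) ^ 2
  ex : ∃ (s B k M : ℕ) (Z : Fin s → MvPolynomial (Fin (N + 1)) K) (a : Fin c → K),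
    Function.Injective a ∧ (∀ t, (Z t).IsHomogeneous 2) ∧ N < k ∧ 6 * N + k * s < B ∧
    4 * (B + k * s) + (B + k * s + 1) ^ 2 < 2 * (M + 1) ∧ 4 * (B + k * s) < M + 1 ∧
    M + 1 + (B + k * s) ≤ c ∧ (∀ i, P i = pf B k Z (a i)) ∧
    (∀ (Ω : Type) [Field Ω] [Algebra K Ω] (x : Fin (n + 1) → Ω), (∀ k, aeval x (F k) = 0) →
      ∀ t, aeval (ver m x) (Z t) = 0) ∧
    (∀ (Ω : Type) [Field Ω] [Algebra K Ω] (y : Fin (N + 1) → Ω), y ≠ 0 →
      (∀ t, aeval y (Z t) = 0) → ∃ (x : Fin (n + 1) → Ω) (c₀ : Ω), x ≠ 0 ∧ c₀ ≠ 0 ∧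
        (∀ k, aeval x (F k) = 0) ∧ y = c₀ • ver m x)
  smooth : SmoothCover P

/-- **Existence of the cover over `K`**, with coefficients in a subring over which the forms `b` are
defined. -/
theorem exists_cv {K : Type} [Field K] [CharZero K] {R : Type} [CommRing R] (φ : R →+* K)
    {n N d : ℕ} {m : Fin (N + 1) → Fin (n + 1) → ℕ} (hn : 1 ≤ n) (hd : 3 ≤ d)
    (hm : Mon n N d m) (hN : 2 * n < N) {κ : Type} {F : κ → MvPolynomial (Fin (n + 1)) K}
    (hF : ∀ k, ∃ e ≤ d, (F k).IsHomogeneous e) {r : ℕ}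
    (b : Fin r → MvPolynomial (Fin (N + 1)) R) (hbR : ∀ l, (b l).IsHomogeneous 2)
    (hb : Bs n N d m F fun l => map φ (b l)) (c : ℕ) (hc : cN N ≤ c) :
    ∃ P ℓ : Fin c → MvPolynomial (Fin (N + 1)) R, (∀ i, (P i).IsHomogeneous 2) ∧
      (∀ i, (ℓ i).IsHomogeneous 1) ∧
      Cv n N d c m F (fun i => map φ (P i)) (fun i => map φ (ℓ i)) := by
  classical
  obtain ⟨s, hs⟩ : ∃ s, s = (N + 1) ^ 2 := ⟨_, rfl⟩
  have hr := hb.hr
  rw [← hs] at hr
  obtain ⟨k, hk⟩ : ∃ k, k = N + 1 := ⟨_, rfl⟩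
  obtain ⟨B, hB⟩ : ∃ B, B = 6 * N + k * s + 1 := ⟨_, rfl⟩
  obtain ⟨D, hD⟩ : ∃ D, D = B + k * s := ⟨_, rfl⟩
  have hDN : D = 2 * (N + 1) ^ 3 + 6 * N + 1 := by
    rw [hD, hB, hs, hk]
    ring
  have hs1 : N + 1 ≤ s := by
    rw [hs]
    nlinarith
  have hcD : (D + 4) ^ 2 ≤ c := by
    refine le_trans (le_of_eq ?_) hc
    rw [hDN]
    unfold cN
    ring
  obtain ⟨M, hM⟩ : ∃ M, M = 4 * D + (D + 1) ^ 2 := ⟨_, rfl⟩
  have hcM : M + 1 + D ≤ c := by
    refine le_trans ?_ hcD
    rw [hM]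
    nlinarith
  have hcM' : M + 1 + (B + k * s) ≤ c := by
    rw [← hD]
    exact hcM
  have hM1 : 4 * (B + k * s) + (B + k * s + 1) ^ 2 < 2 * (M + 1) := by
    rw [← hD, hM]
    omega
  have hM2 : 4 * (B + k * s) < M + 1 := by
    rw [← hD, hM]
    omega
  obtain ⟨a, C', ha, hcol, hsm⟩ := exists_params (c := c) hb B k (by omega) hs1 hr
  have hPm : ∀ i, map φ (pk B k (zk b C') ((a i : ℤ) : R)) =
      pk B k (zk (fun l => map φ (b l)) C') ((a i : ℤ) : K) := by
    intro i
    rw [map_pk, map_intCast]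
    congr 1
    funext t
    rw [map_zk]
  have hZsub : ∀ (Ω : Type) [Field Ω] [Algebra K Ω] (x : Fin (n + 1) → Ω),
      (∀ k, aeval x (F k) = 0) → ∀ t, aeval (ver m x) (zk (fun l => map φ (b l)) C' t) = 0 := by
    intro Ω _ _ x hx t
    rw [zk_aeval]
    exact Finset.sum_eq_zero fun l _ => by rw [hb.sub Ω x hx l, mul_zero]
  refine ⟨fun i => pk B k (zk b C') ((a i : ℤ) : R), fun i => lk ((a i : ℤ) : R),
    fun i => pk_hom B k (zk_hom hbR C') _, fun i => lk_hom _, hn, hd, hm, hN, hF, ?_, ?_, ?_,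
    ⟨s, B, k, M, zk (fun l => map φ (b l)) C', fun i => ((a i : ℤ) : K), ?_,
      zk_hom hb.hom C', by omega, by omega, hM1, hM2, hcM', ?_, hZsub, ?_⟩, ?_⟩
  · intro i
    exact (pk_hom B k (zk_hom hbR C') _).map φ
  · intro i
    exact (lk_hom _).map φ
  · intro Ω _ _ x hx i
    change aeval (ver m x) (map φ (pk B k (zk b C') ((a i : ℤ) : R))) =
      aeval (ver m x) (map φ (lk ((a i : ℤ) : R))) ^ 2
    rw [hPm, map_lk, map_intCast]
    exact pk_sub (hZsub Ω x hx)
  · intro i j hij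
    exact ha (Int.cast_injective hij)
  · intro i
    rw [hPm, pk_eq]
  · intro Ω _ _ y hy hyt
    refine hb.cone Ω y hy fun l => ?_
    have h1 : (fun l => aeval y (map φ (b l))) = 0 := by
      refine hcol Ω _ fun t => ?_
      rw [← zk_aeval]
      exact hyt t
    exact congrFun h1 l
  · have h1 : (fun i => map φ (pk B k (zk b C') ((a i : ℤ) : R))) =
        fun i => pk B k (zk (fun l => map φ (b l)) C') ((a i : ℤ) : K) := funext hPm
    rw [h1]
    exact cover_smooth hb.hom hsm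

/-- the cover over a field -/
theorem exists_cvK {K : Type} [Field K] [CharZero K] {n N d : ℕ}
    {m : Fin (N + 1) → Fin (n + 1) → ℕ} (hn : 1 ≤ n) (hd : 3 ≤ d)
    (hm : Mon n N d m) (hN : 2 * n < N) {κ : Type} [Finite κ]
    {F : κ → MvPolynomial (Fin (n + 1)) K} (hF : ∀ k, ∃ e ≤ d, (F k).IsHomogeneous e) (c : ℕ)
    (hc : cN N ≤ c) : ∃ P ℓ : Fin c → MvPolynomial (Fin (N + 1)) K, Cv n N d c m F P ℓ := by
  obtain ⟨r, b, hb⟩ := exists_bs hm (by omega) hN hF
  obtain ⟨P, ℓ, -, -, h⟩ := exists_cv (RingHom.id K) hn hd hm hN hF b hb.hom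
    (by simpa only [map_id] using hb) c hc
  refine ⟨P, ℓ, ?_⟩
  simpa only [map_id] using h

/-- base change -/
theorem Cv.map {K : Type} [Field K] {n N d c : ℕ} {m : Fin (N + 1) → Fin (n + 1) → ℕ} {κ : Type}
    {F : κ → MvPolynomial (Fin (n + 1)) K} {P ℓ : Fin c → MvPolynomial (Fin (N + 1)) K}
    (h : Cv n N d c m F P ℓ) (k : Type) [Field k] [Algebra K k] :
    Cv n N d c m (fun i => map (algebraMap K k) (F i)) (fun i => map (algebraMap K k) (P i))
      (fun i => map (algebraMap K k) (ℓ i)) := by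
  obtain ⟨s, B, κ', M, Z, a, ha, hZ, h1, h2, h3, h4, h5, hP, hsub, hcone⟩ := h.ex
  have key : ∀ (Ω : Type) [Field Ω] [Algebra k Ω], ∃ (_ : Algebra K Ω),
      ∀ (σ : Type) (x : σ → Ω) (G : MvPolynomial σ K),
        aeval x (MvPolynomial.map (algebraMap K k) G) = aeval x G := by
    intro Ω _ _
    let _ : Algebra K Ω := ((algebraMap k Ω).comp (algebraMap K k)).toAlgebra
    have _ : IsScalarTower K k Ω := IsScalarTower.of_algebraMap_eq fun _ => rfl
    exact ⟨inferInstance, fun σ x G => aeval_map_algebraMap k x G⟩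
  refine ⟨h.hn, h.hd, h.mon, h.hN, ?_, fun i => (h.homP i).map _, fun i => (h.homL i).map _, ?_,
    ⟨s, B, κ', M, fun t => MvPolynomial.map (algebraMap K k) (Z t), fun i => algebraMap K k (a i),
      (algebraMap K k).injective.comp ha, fun t => (hZ t).map _, h1, h2, h3, h4, h5, ?_, ?_, ?_⟩, ?_⟩
  · intro i
    obtain ⟨e, he, hh⟩ := h.hF i
    exact ⟨e, he, hh.map _⟩
  · intro Ω _ _ x hx i
    obtain ⟨_, hm⟩ := key Ω
    simp only [hm] at hx ⊢
    exact h.sub Ω x hx i
  · intro i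
    change MvPolynomial.map (algebraMap K k) (P i) = _
    rw [hP i, ← pk_eq, map_pk]
    rfl
  · intro Ω _ _ x hx t
    obtain ⟨_, hm⟩ := key Ω
    simp only [hm] at hx ⊢
    exact hsub Ω x hx t
  · intro Ω _ _ y hy hyt
    obtain ⟨_, hm⟩ := key Ω
    simp only [hm] at hyt ⊢
    exact hcone Ω y hy hyt
  · intro Ω _ _ y hy hyP
    obtain ⟨_, hm⟩ := key Ω
    have e1 : ∀ i, aeval y (coverForm (fun i => MvPolynomial.map (algebraMap K k) (P i)) i) =
        aeval y (coverForm P i) := by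
      intro i
      rw [← map_cover, hm]
    have e2 : ∀ i j, aeval y (pderiv j
        (coverForm (fun i => MvPolynomial.map (algebraMap K k) (P i)) i)) =
        aeval y (pderiv j (coverForm P i)) := by
      intro i j
      rw [← map_cover, pderiv_map, hm]
    simp only [e1] at hyP
    simp only [e2]
    exact h.smooth Ω y hy hyP

end Pool.Agent.U207.QK
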