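import Mathlib
import Pool.Agent.U207.QC.Defs

/-!
Covers of projective space branched along quadrics, over arbitrary rings and fields: definitions.
-/

set_option autoImplicit false

namespace Pool.Agent.U207.QK

open MvPolynomial
open Pool.Agent.U207.QC (hI xI)

/-- the quadratic form `x_i ^ 2 - P_i(h_0, …, h_N)` with coefficients in `R`: the equations of the
covering `Y = {x_i ^ 2 = P_i(h), i < c}` of `P^N` in `P^{N+c}` -/
noncomputable def coverForm {R : Type} [CommRing R] {N c : ℕ}
    (P : Fin c → MvPolynomial (Fin (N + 1)) R) (i : Fin c) : MvPolynomial (Fin (N + c + 1)) R :=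
  X (xI N c i) ^ 2 - rename (hI N c) (P i)

/-- `Y` is a smooth complete intersection of `c` quadrics: at all points of `Y` over extension fields of
`K` the gradients of the `c` equations are linearly independent -/
def SmoothCover {K : Type} [Field K] {N c : ℕ} (P : Fin c → MvPolynomial (Fin (N + 1)) K) : Prop :=
  ∀ (Ω : Type) [Field Ω] [Algebra K Ω] (y : Fin (N + c + 1) → Ω), y ≠ 0 →
    (∀ i, aeval y (coverForm P i) = 0) →
    LinearIndependent Ω fun (i : Fin c) (j : Fin (N + c + 1)) => aeval y (pderiv j (coverForm P i))

end Pool.Agent.U207.QK
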