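import Pool.Agent.U207.QK.Sht

/-!
Project QK (helper207), part G: exceptional sets for points over small fields.
-/

set_option autoImplicit false

namespace Pool.Agent.U207.QK

open MvPolynomial
open scoped LinearAlgebra.Projectivization
open Pool.Agent.N254.SQ (Mon ver ver_prop ver_smul ver_ne_zero)
open Pool.Agent.W602.GT (SubVar GeneralType IsForm coords)
open Pool.Agent.U207.QC (hI xI pt pt_h pt_x pt_hI pt_ne idx_cases)

section

variable {k : Type} [Field k] {n : ℕ}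

/-- only finitely many points of `V(S)` over each of the fields in `𝒦` are outside of `G = 0` -/
def FinOff (𝒦 : Set (Subfield k)) (S : Set (MvPolynomial (Fin (n + 1)) k))
    (G : MvPolynomial (Fin (n + 1)) k) : Prop :=
  ∀ K ∈ 𝒦, {P : ℙ k (Fin (n + 1) → k) | ∃ (x : Fin (n + 1) → k) (hx : x ≠ 0),
    P = Projectivization.mk k x hx ∧ (∀ j, x j ∈ K) ∧ (∀ p ∈ S, eval x p = 0) ∧
      eval x G ≠ 0}.Finite

/-- the class of fields `𝒦` is large: finitely many elements can be adjoined -/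
def Large (𝒦 : Set (Subfield k)) : Prop :=
  ∀ K ∈ 𝒦, ∀ s : Finset k, ∃ K' ∈ 𝒦, K ≤ K' ∧ ∀ a ∈ s, a ∈ K'

variable {𝒦 : Set (Subfield k)}

theorem finOff_idl (S : Set (MvPolynomial (Fin (n + 1)) k)) : Idl (FinOff 𝒦 S) where
  zero := by
    intro K _
    convert Set.finite_empty using 1
    ext P
    simp
  add := by
    intro e G G' _ _ hG hG' K hK
    refine ((hG K hK).union (hG' K hK)).subset ?_
    rintro P ⟨x, hx, h1, h2, h3, h4⟩
    by_cases h5 : eval x G = 0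
    · right
      refine ⟨x, hx, h1, h2, h3, fun h6 => h4 ?_⟩
      rw [map_add, h5, h6, add_zero]
    · left
      exact ⟨x, hx, h1, h2, h3, h5⟩
  mul := by
    intro G F _ _ hG K hK
    refine (hG K hK).subset ?_
    rintro P ⟨x, hx, h1, h2, h3, h4⟩
    rw [map_mul] at h4
    exact ⟨x, hx, h1, h2, h3, left_ne_zero_of_mul h4⟩
  rad := by
    intro G r _ hG K hK
    refine (hG K hK).subset ?_
    rintro P ⟨x, hx, h1, h2, h3, h4⟩
    refine ⟨x, hx, h1, h2, h3, ?_⟩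
    rw [map_pow]
    exact pow_ne_zero r h4

theorem finOff_van {S : Set (MvPolynomial (Fin (n + 1)) k)} {G : MvPolynomial (Fin (n + 1)) k}
    (h : ∀ x : Fin (n + 1) → k, (∀ p ∈ S, eval x p = 0) → eval x G = 0) : FinOff 𝒦 S G := by
  intro K _
  convert Set.finite_empty using 1
  ext P
  simp only [Set.mem_setOf_eq, Set.mem_empty_iff_false, iff_false]
  rintro ⟨x, hx, -, -, h1, h2⟩
  exact h2 (h x h1)

theorem finOff_mono {S S' : Set (MvPolynomial (Fin (n + 1)) k)}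
    (h : ∀ x : Fin (n + 1) → k, (∀ p ∈ S', eval x p = 0) → ∀ p ∈ S, eval x p = 0)
    {G : MvPolynomial (Fin (n + 1)) k} (hG : FinOff 𝒦 S G) : FinOff 𝒦 S' G := by
  intro K hK
  refine (hG K hK).subset ?_
  rintro P ⟨x, hx, h1, h2, h3, h4⟩
  exact ⟨x, hx, h1, h2, h x h3, h4⟩

theorem finOff_coord {S : Set (MvPolynomial (Fin (n + 1)) k)} {G : MvPolynomial (Fin (n + 1)) k}
    (h : ∀ j, FinOff 𝒦 S (G * X j)) : FinOff 𝒦 S G := by
  intro K hK
  refine (Set.finite_iUnion fun j => h j K hK).subset ?_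
  rintro P ⟨x, hx, h1, h2, h3, h4⟩
  obtain ⟨j, hj⟩ : ∃ j, x j ≠ 0 := by
    by_contra hcon
    push Not at hcon
    exact hx (funext hcon)
  refine Set.mem_iUnion.2 ⟨j, x, hx, h1, h2, h3, ?_⟩
  rw [map_mul, eval_X]
  exact mul_ne_zero h4 hj

theorem finOff_restr {S : Set (MvPolynomial (Fin (n + 1)) k)} {L : Type} [Field L] [Algebra k L]
    {y : Fin (n + 1) → L} {G H : MvPolynomial (Fin (n + 1)) k}
    (h1 : ∀ F, IsForm F → aeval y F = 0 → FinOff 𝒦 S (F * H)) (h2 : FinOff 𝒦 (Eqs (k := k) y) G) :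
    FinOff 𝒦 S (G * H) := by
  obtain ⟨T, d, hT, -, -, hT2⟩ := exists_same (Eqs (k := k) y) fun p hp => hp.1
  intro K hK
  refine ((h2 K hK).union (Set.finite_iUnion fun p : T =>
    h1 p (hT p.2).1 (hT p.2).2 K hK)).subset ?_
  rintro P ⟨x, hx, h3, h4, h5, h6⟩
  rw [map_mul] at h6
  by_cases h7 : ∀ p : T, aeval x (p : MvPolynomial (Fin (n + 1)) k) = 0
  · left
    exact ⟨x, hx, h3, h4, fun p hp => (hT2 k x).1 h7 p hp, left_ne_zero_of_mul h6⟩
  · right
    push Not at h7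
    obtain ⟨p, hp⟩ := h7
    refine Set.mem_iUnion.2 ⟨p, x, hx, h3, h4, h5, ?_⟩
    rw [map_mul]
    exact mul_ne_zero hp (right_ne_zero_of_mul h6)

/-- the generic point of a set of dimension zero -/
theorem dim_zero [IsAlgClosed k] {L : Type} [Field L] [Algebra k L] {y : Fin (n + 1) → L}
    (hy : Gen (𝕜 := k) L 0 y) : ∃ (a : Fin (n + 1) → k) (s : L), a ≠ 0 ∧ s ≠ 0 ∧
      y = fun j => s * algebraMap k L (a j) := by
  obtain ⟨j0, hj0⟩ : ∃ j, y j ≠ 0 := by
    by_contra hcon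
    push Not at hcon
    exact hy.ne (funext hcon)
  have h1 := hy.dim
  rw [Nat.cast_zero, trdeg_eq_zero_iff] at h1
  have hsurj : Function.Surjective (algebraMap k L) :=
    (IsAlgClosed.algebraMap_bijective_of_isIntegral (k := k) (K := L)).2
  choose a ha using fun j => hsurj (y j / y j0)
  refine ⟨a, y j0, ?_, hj0, ?_⟩
  · intro h0
    have h2 := ha j0
    rw [h0, Pi.zero_apply, map_zero, div_self hj0] at h2
    exact zero_ne_one h2
  · funext j
    rw [ha, mul_div_cancel₀ _ hj0]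

/-- points of a set of dimension zero over extension fields -/
theorem dim_zero_pts [IsAlgClosed k] {L : Type} [Field L] [Algebra k L] {y : Fin (n + 1) → L}
    (hy : Gen (𝕜 := k) L 0 y) : ∃ a : Fin (n + 1) → k, a ≠ 0 ∧
      ∀ (Ω : Type) [Field Ω] [Algebra k Ω] (x : Fin (n + 1) → Ω),
        (∀ p ∈ Eqs (k := k) y, aeval x p = 0) → ∀ i j,
          x i * algebraMap k Ω (a j) = x j * algebraMap k Ω (a i) := by
  obtain ⟨a, s, ha, hs, hya⟩ := dim_zero hy
  refine ⟨a, ha, fun Ω _ _ x hx i j => ?_⟩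
  have h2 : (X i * C (a j) - X j * C (a i) : MvPolynomial (Fin (n + 1)) k).IsHomogeneous 1 := by
    refine IsHomogeneous.sub ?_ ?_
    · have := (isHomogeneous_X k i).mul (isHomogeneous_C (Fin (n + 1)) (a j))
      rwa [add_zero] at this
    · have := (isHomogeneous_X k j).mul (isHomogeneous_C (Fin (n + 1)) (a i))
      rwa [add_zero] at this
  have h3 := hx _ ⟨⟨1, h2⟩, by
    rw [map_sub, map_mul, map_mul, aeval_X, aeval_X, aeval_C, aeval_C, hya]
    ring⟩
  rw [map_sub, map_mul, map_mul, aeval_X, aeval_X, aeval_C, aeval_C, sub_eq_zero] at h3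
  exact h3

theorem finOff_point [IsAlgClosed k] {L : Type} [Field L] [Algebra k L] {y : Fin (n + 1) → L}
    (hy : Gen (𝕜 := k) L 0 y) : FinOff 𝒦 (Eqs (k := k) y) 1 := by
  obtain ⟨a, ha, hx⟩ := dim_zero_pts hy
  intro K _
  refine Set.Subsingleton.finite ?_
  rintro P ⟨x, hx0, rfl, -, h1, -⟩ P' ⟨x', hx0', rfl, -, h1', -⟩
  obtain ⟨j0, hj0⟩ : ∃ j, a j ≠ 0 := by
    by_contra hcon
    push Not at hcon
    exact ha (funext hcon)
  have key : ∀ x : Fin (n + 1) → k, (∀ p ∈ Eqs (k := k) y, eval x p = 0) → x ≠ 0 →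
      x j0 ≠ 0 ∧ x = (x j0 / a j0) • a := by
    intro x h2 h3
    have h4 : ∀ i, x i * a j0 = x j0 * a i := fun i => hx k x h2 i j0
    have h5 : x = (x j0 / a j0) • a := by
      funext i
      rw [Pi.smul_apply, smul_eq_mul, div_mul_eq_mul_div, eq_div_iff hj0]
      exact h4 i
    refine ⟨fun h6 => h3 ?_, h5⟩
    rw [h5, h6, zero_div, zero_smul]
  obtain ⟨h2, h3⟩ := key x h1 hx0
  obtain ⟨h4, h5⟩ := key x' h1' hx0'
  rw [Projectivization.mk_eq_mk_iff']
  refine ⟨(x j0 / a j0) * (x' j0 / a j0)⁻¹, ?_⟩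
  have h6 : x' j0 / a j0 ≠ 0 := div_ne_zero h4 hj0
  conv_lhs => rw [h5]
  rw [smul_smul]
  conv_rhs => rw [h3]
  congr 1
  have h7 : (x' j0 / a j0) • a = x' := h5.symm
  simp only [Pi.smul_apply, smul_eq_mul, div_mul_cancel₀ _ hj0]
  field_simp

end

section sheet

variable {k : Type} [Field k] {n N d c : ℕ} {m : Fin (N + 1) → Fin (n + 1) → ℕ} {κ : Type}
  {F : κ → MvPolynomial (Fin (n + 1)) k} {P ℓ : Fin c → MvPolynomial (Fin (N + 1)) k}
  {𝒦 : Set (Subfield k)}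

theorem eval_mem {K : Subfield k} {M : ℕ} {x : Fin (M + 1) → k} (hx : ∀ j, x j ∈ K)
    {G : MvPolynomial (Fin (M + 1)) k} (hG : ∀ a ∈ G.coeffs, a ∈ K) : eval x G ∈ K := by
  rw [eval_eq]
  refine sum_mem fun α hα => mul_mem (hG _ (coeff_mem_coeffs _ (mem_support_iff.1 hα))) ?_
  exact prod_mem fun j _ => pow_mem (hx j) _

/-- the point on the sheet -/
theorem el_mem {K : Subfield k} {x : Fin (n + 1) → k} (hx : ∀ j, x j ∈ K)
    (hℓ : ∀ i, ∀ a ∈ (ℓ i).coeffs, a ∈ K) (l : Fin (N + c + 1)) : elK ℓ (ver m x) l ∈ K := by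
  have hv : ∀ a, ver m x a ∈ K := fun a => prod_mem fun j _ => pow_mem (hx j) _
  rcases idx_cases l with ⟨j, rfl⟩ | ⟨i, rfl⟩
  · rw [elK_h]
    exact hv j
  · rw [elK_x]
    exact eval_mem hv (hℓ i)

/-- the sheets as subsets of the cover: points -/
theorem Cv.down (h : Cv n N d c m F P ℓ) (h𝒦 : Large 𝒦) {G : MvPolynomial (Fin (N + c + 1)) k}
    (hG : FinOff 𝒦 (Set.range (coverForm P)) G) : FinOff 𝒦 (Set.range F) (onSheet m ℓ G) := by
  classical
  intro K hK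
  obtain ⟨K', hK', hKK, hs⟩ := h𝒦 K hK (Finset.univ.biUnion fun i => (ℓ i).coeffs)
  have hℓ : ∀ i, ∀ a ∈ (ℓ i).coeffs, a ∈ K' := fun i a ha =>
    hs a (Finset.mem_biUnion.2 ⟨i, Finset.mem_univ i, ha⟩)
  let φ : ℙ k (Fin (n + 1) → k) → ℙ k (Fin (N + c + 1) → k) := fun Q =>
    Projectivization.mk k (elK ℓ (ver m Q.rep)) (elK_ne (ver_ne_zero h.mon h.hd1 Q.rep_nonzero))
  have hφ : Function.Injective φ := by
    intro Q Q' hQ
    obtain ⟨a, ha⟩ := (Projectivization.mk_eq_mk_iff k _ _ _ _).1 hQ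
    have h1 : ver m Q.rep = (a : k) • ver m Q'.rep := by
      have h3 := congrArg (fun v : Fin (N + c + 1) → k => v ∘ hI N c) ha
      simp only [elK_hI] at h3
      rw [← h3]
      funext j
      change (a : k) * elK ℓ (ver m Q'.rep) (hI N c j) = (a : k) * ver m Q'.rep j
      rw [elK_h]
    obtain ⟨s, hs⟩ := ver_prop (c := (a : k)) h.mon h.hd1 Q.rep_nonzero h1
    have hs0 : s ≠ 0 := by
      intro h0
      rw [h0, zero_smul] at hs
      exact Q.rep_nonzero hs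
    rw [← Q.mk_rep, ← Q'.mk_rep, Projectivization.mk_eq_mk_iff]
    exact ⟨Units.mk0 s hs0, hs.symm⟩
  apply Set.Finite.of_finite_image (f := φ) ((hG K' hK').subset ?_) hφ.injOn
  rintro _ ⟨_, ⟨x, hx, rfl, hxK, hxF, hxG⟩, rfl⟩
  have hF : ∀ i, aeval x (F i) = 0 := fun i => hxF _ ⟨i, rfl⟩
  refine ⟨elK ℓ (ver m x), elK_ne (ver_ne_zero h.mon h.hd1 hx), ?_,
    el_mem (fun j => hKK (hxK j)) hℓ, ?_, ?_⟩
  · obtain ⟨a, ha⟩ := Projectivization.exists_smul_eq_mk_rep k x hx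
    change Projectivization.mk k (elK ℓ (ver m (Projectivization.mk k x hx).rep)) _ = _
    rw [Projectivization.mk_eq_mk_iff']
    refine ⟨(a : k) ^ d, ?_⟩
    rw [← elK_smul h.homL, ← ver_smul h.mon]
    congr 2
  · rintro _ ⟨i, rfl⟩
    exact h.mem hF i
  · have h1 := aeval_onSheet (m := m) ℓ G x
    intro h0
    exact hxG (h1.trans h0)

end sheet

end Pool.Agent.U207.QK
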