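import Pool.Agent.U207.QK.Cur
import Pool.Agent.U207.QK.Comp
import Pool.Agent.N254.SQ.Geo2
import Pool.Agent.N254.SQ.Red

/-!
Project QK (helper207), part F: the sheets of the cover over a field `k`, the main argument.
-/

set_option autoImplicit false

namespace Pool.Agent.U207.QK

open MvPolynomial
open Pool.Agent.N254.SQ (Mon ver ver_prop ver_smul ver_ne_zero ver_near)
open Pool.Agent.W602.GT (SubVar GeneralType IsForm coords)
open Pool.Agent.U207.QC (hI xI pt pt_h pt_x pt_hI pt_ne idx_cases)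

section sheet

variable {k : Type} [Field k] {n N d c : ℕ} {m : Fin (N + 1) → Fin (n + 1) → ℕ}
  {L : Type} [Field L] [Algebra k L]

/-- the ratios of the Veronese coordinates generate the same field -/
theorem coords_verK (hm : Mon n N d m) (hd : 1 ≤ d) (x : Fin (n + 1) → L) (hx : x ≠ 0) :
    coords k (ver m x) = coords k x := by
  obtain ⟨a, ha⟩ : ∃ a, x a ≠ 0 := by
    by_contra hcon
    push Not at hcon
    exact hx (funext hcon)
  apply le_antisymm
  · apply IntermediateField.adjoin_le_iff.2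
    rintro _ ⟨i, j, hj, rfl⟩
    have key : ∀ b, ver m x b / x a ^ d ∈ coords k x := by
      intro b
      have h1 : ver m x b / x a ^ d = ∏ s, (x s / x a) ^ m b s := by
        simp only [div_pow, Finset.prod_div_distrib]
        rw [Finset.prod_pow_eq_pow_sum, hm.deg]
        rfl
      rw [h1]
      have h2 : ∀ s, x s / x a ∈ coords k x := fun s =>
        IntermediateField.subset_adjoin k {z | ∃ i j, x j ≠ 0 ∧ z = x i / x j} ⟨s, a, ha, rfl⟩
      exact prod_mem fun s _ => pow_mem (h2 s) _
    have hxa : x a ^ d ≠ 0 := pow_ne_zero _ ha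
    have h2 : ver m x i / ver m x j = (ver m x i / x a ^ d) / (ver m x j / x a ^ d) := by
      rw [div_div_div_cancel_right₀ hxa]
    rw [h2]
    exact div_mem (key i) (key j)
  · apply IntermediateField.adjoin_le_iff.2
    rintro _ ⟨i, j, hj, rfl⟩
    obtain ⟨b, hb⟩ := ver_near (Ω := L) hm hd j i
    obtain ⟨b', hb'⟩ := ver_near (Ω := L) hm hd j j
    have h1 : x i / x j = ver m x b / ver m x b' := by
      rw [hb, hb', mul_div_mul_left _ _ (pow_ne_zero _ hj)]
    rw [h1]
    apply IntermediateField.subset_adjoin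
    refine ⟨b, b', ?_, rfl⟩
    rw [hb']
    exact mul_ne_zero (pow_ne_zero _ hj) hj

/-- the ratios of the coordinates -/
theorem coords_elK {ℓ : Fin c → MvPolynomial (Fin (N + 1)) k} (hl : ∀ i, (ℓ i).IsHomogeneous 1)
    {y : Fin (N + 1) → L} (hy : y ≠ 0) : coords k (elK ℓ y) = coords k y := by
  obtain ⟨a, ha⟩ : ∃ a, y a ≠ 0 := by
    by_contra hcon
    push Not at hcon
    exact hy (funext hcon)
  apply le_antisymm
  · have h1 : ∀ l, elK ℓ y l / y a ∈ coords k y := by
      intro l
      rcases idx_cases l with ⟨j, rfl⟩ | ⟨i, rfl⟩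
      · rw [elK_h]
        exact IntermediateField.subset_adjoin k _ ⟨j, a, ha, rfl⟩
      · rw [elK_x]
        have h2 : aeval y (ℓ i) / y a = aeval (fun j => y j / y a) (ℓ i) := by
          have h3 := aeval_scaleK (hl i) (y a) (fun j => y j / y a)
          have h4 : y a • (fun j => y j / y a) = y := by
            funext j
            rw [Pi.smul_apply, smul_eq_mul, mul_div_cancel₀ _ ha]
          rw [h4, pow_one] at h3
          rw [h3, mul_div_cancel_left₀ _ ha]
        rw [h2]
        have h5 : (aeval fun j => y j / y a) (ℓ i) ∈ (coords k y).toSubalgebra := by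
          have h6 : ∀ p : MvPolynomial (Fin (N + 1)) k,
              (aeval fun j => y j / y a) p ∈ (coords k y).toSubalgebra := by
            intro p
            induction p using MvPolynomial.induction_on with
            | C r =>
              rw [aeval_C]
              exact Subalgebra.algebraMap_mem _ r
            | add p q hp hq =>
              rw [map_add]
              exact add_mem hp hq
            | mul_X p j hp =>
              rw [map_mul, aeval_X]
              exact mul_mem hp (IntermediateField.subset_adjoin k _ ⟨j, a, ha, rfl⟩)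
          exact h6 _
        exact h5
    apply IntermediateField.adjoin_le_iff.2
    rintro _ ⟨i, j, hj, rfl⟩
    have h4 : elK ℓ y i / elK ℓ y j = (elK ℓ y i / y a) / (elK ℓ y j / y a) := by
      rw [div_div_div_cancel_right₀ ha]
    rw [h4]
    exact div_mem (h1 i) (h1 j)
  · apply IntermediateField.adjoin_le_iff.2
    rintro _ ⟨i, j, hj, rfl⟩
    exact IntermediateField.subset_adjoin k _ ⟨hI N c i, hI N c j, by rw [elK_h]; exact hj, by
      rw [elK_h, elK_h]⟩

/-- the pull-back of the form `G` on `P^{N+c}` by the map `x ↦ (v(x), ℓ(v(x)))` -/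
noncomputable def onSheet (m : Fin (N + 1) → Fin (n + 1) → ℕ)
    (ℓ : Fin c → MvPolynomial (Fin (N + 1)) k) (G : MvPolynomial (Fin (N + c + 1)) k) :
    MvPolynomial (Fin (n + 1)) k :=
  aeval (elK ℓ fun a => ∏ j, (X j : MvPolynomial (Fin (n + 1)) k) ^ m a j) G

theorem aeval_onSheet (ℓ : Fin c → MvPolynomial (Fin (N + 1)) k)
    (G : MvPolynomial (Fin (N + c + 1)) k) (x : Fin (n + 1) → L) :
    aeval x (onSheet m ℓ G) = aeval (elK ℓ (ver m x)) G := by
  change ((aeval x).comp (aeval (elK ℓ fun a => ∏ j,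
    (X j : MvPolynomial (Fin (n + 1)) k) ^ m a j))) G = _
  rw [comp_aeval]
  congr 2
  funext l
  have hv : ∀ a, aeval x (∏ j, (X j : MvPolynomial (Fin (n + 1)) k) ^ m a j) = ver m x a := by
    intro a
    rw [map_prod]
    exact Finset.prod_congr rfl fun j _ => by rw [map_pow, aeval_X]
  rcases idx_cases l with ⟨j, rfl⟩ | ⟨i, rfl⟩
  · rw [elK_h, elK_h, hv]
  · rw [elK_x, elK_x]
    have h1 := MvPolynomial.comp_aeval_apply
      (fun a => ∏ j, (X j : MvPolynomial (Fin (n + 1)) k) ^ m a j) (aeval x) (ℓ i)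
    rw [h1]
    congr 2
    funext a
    exact hv a

theorem onSheet_form (hm : Mon n N d m) {ℓ : Fin c → MvPolynomial (Fin (N + 1)) k}
    (hl : ∀ i, (ℓ i).IsHomogeneous 1) {G : MvPolynomial (Fin (N + c + 1)) k} {e : ℕ}
    (hG : G.IsHomogeneous e) : (onSheet m ℓ G).IsHomogeneous (d * e) := by
  have hv : ∀ a, (∏ j, (X j : MvPolynomial (Fin (n + 1)) k) ^ m a j).IsHomogeneous d := by
    intro a
    have h1 := IsHomogeneous.prod (Finset.univ : Finset (Fin (n + 1)))
      (fun j => (X j : MvPolynomial (Fin (n + 1)) k) ^ m a j) (fun j => m a j) (fun j _ => by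
        have := (isHomogeneous_X k j).pow (m a j)
        rwa [one_mul] at this)
    rwa [hm.deg] at h1
  refine hG.aeval _ fun l => ?_
  rcases idx_cases l with ⟨j, rfl⟩ | ⟨i, rfl⟩
  · rw [elK_h]
    exact hv j
  · rw [elK_x]
    have h1 := (hl i).aeval (fun a => ∏ j, (X j : MvPolynomial (Fin (n + 1)) k) ^ m a j) hv
    rwa [mul_one] at h1

variable {κ : Type} {F : κ → MvPolynomial (Fin (n + 1)) k}
  {P ℓ : Fin c → MvPolynomial (Fin (N + 1)) k}

theorem Cv.hd1 (h : Cv n N d c m F P ℓ) : 1 ≤ d := le_trans (by norm_num) h.hd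

/-- the points of `Y` over `v(F = 0)` are on the sheets -/
theorem Cv.exists_signs (h : Cv n N d c m F P ℓ) {y : Fin (N + c + 1) → L}
    (hy : ∀ i, aeval y (coverForm P i) = 0) {x : Fin (n + 1) → L} {s : L}
    (hx : ∀ i, aeval x (F i) = 0) (hyx : y ∘ hI N c = s • ver m x) (i : Fin c) :
    y (xI N c i) = aeval (y ∘ hI N c) (ℓ i) ∨ y (xI N c i) = - aeval (y ∘ hI N c) (ℓ i) := by
  have h2 := hy i
  have h3 : aeval (y ∘ hI N c) (P i) = aeval (y ∘ hI N c) (ℓ i) ^ 2 := by
    rw [hyx, aeval_scaleK (h.homP i), aeval_scaleK (h.homL i), h.sub L x hx i]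
    ring
  rw [aeval_cover, h3, sub_eq_zero, sq_eq_sq_iff_eq_or_eq_neg] at h2
  exact h2

/-- the sheet of a subvariety -/
theorem Cv.sub_el (h : Cv n N d c m F P ℓ) {w : ℕ} {y : Fin (n + 1) → L}
    (hy : Gen (𝕜 := k) L w y) (hyF : ∀ i, aeval y (F i) = 0) :
    SubVar (coverForm P) L w (elK ℓ (ver m y)) := by
  refine ⟨elK_ne (ver_ne_zero h.mon h.hd1 hy.ne), fun i => h.mem hyF i, ?_, hy.dim⟩
  rw [coords_elK h.homL (ver_ne_zero h.mon h.hd1 hy.ne), coords_verK h.mon h.hd1 y hy.ne, hy.gen]

/-- **The main argument.** -/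
theorem Cv.core [IsAlgClosed k] [CharZero k] (h : Cv n N d c m F P ℓ)
    {I : MvPolynomial (Fin (N + c + 1)) k → Prop} (hI0 : Idl I) (hIP : ∀ i, I (coverForm P i))
    {w : ℕ} {y : Fin (n + 1) → L} (hw : 1 ≤ w) (hy : Gen (𝕜 := k) L w y)
    (hgt : GeneralType k L w)
    (hSame : ∀ (L' : Type) [Field L'] [Algebra k L'] (x : Fin (n + 1) → L'),
      (∀ i, aeval x (F i) = 0) ↔ ∀ p ∈ Eqs (k := k) y, aeval x p = 0)
    (hvan : ∀ G, IsForm G → I G → aeval (elK ℓ (ver m y)) G = 0)
    (hFor : ∀ (L' : Type) [Field L'] [Algebra k L'] (w' : ℕ) (y' : Fin (N + c + 1) → L'), 1 ≤ w' →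
      SubVar (coverForm P) L' w' y' → GeneralType k L' w' → ¬ Component I y') : False := by
  have hyF : ∀ i, aeval y (F i) = 0 := (hSame L y).2 fun p hp => hp.2
  obtain ⟨y₁, hy₁⟩ : ∃ y₁, y₁ = elK ℓ (ver m y) := ⟨_, rfl⟩
  rw [← hy₁] at hvan
  have hsub₁ : SubVar (coverForm P) L w y₁ := by
    rw [hy₁]
    exact h.sub_el hy hyF
  rcases t_comp (N + c) I hI0 L w y₁ ⟨hsub₁.ne, hsub₁.gen, hsub₁.dim⟩
    hvan with ⟨H, hH, hH0, hHI⟩ |
    ⟨L', iF, iA, w', y', hgen, hw', hI', hcl, ⟨G, hG, hG0, hG1⟩, hcomp⟩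
  · exact hFor L w y₁ hw hsub₁ hgt ⟨hvan, H, hH, hH0, hHI⟩
  · have hyP : ∀ i, aeval y' (coverForm P i) = 0 := fun i =>
      hI' _ ⟨2, cover_hom h.homP i⟩ (hIP i)
    have hsub : SubVar (coverForm P) L' w' y' := ⟨hgen.ne, hyP, hgen.gen, hgen.dim⟩
    have hco : Component I y' := ⟨hI', hcomp⟩
    rcases h.special hgen.ne hgen.gen hgen.dim hyP with h1 | ⟨x, s, hx, hs, hxS, hyx⟩
    · exact hFor L' w' y' hw' hsub h1 hco
    · have hEx : ∀ F, IsForm F → aeval y F = 0 → aeval x F = 0 := fun F hF hF0 =>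
        (hSame L' x).1 hxS F ⟨hF, hF0⟩
      have hsg := fun i => h.exists_signs hyP hxS hyx i
      -- the signs are those of `ℓ`
      have hyl' : y' = elK ℓ (y' ∘ hI N c) := by
        funext l
        rcases idx_cases l with ⟨j, rfl⟩ | ⟨i, rfl⟩
        · rw [elK_h]
          rfl
        · rw [elK_x]
          rcases hsg i with h2 | h2
          · exact h2
          · -- the linear form vanishes
            have hform : IsForm (X (xI N c i) + rename (hI N c) (ℓ i) :
                MvPolynomial (Fin (N + c + 1)) k) :=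
              ⟨1, (isHomogeneous_X k _).add (h.homL i).rename_isHomogeneous⟩
            have h3 : aeval y' (X (xI N c i) + rename (hI N c) (ℓ i)) = 0 := by
              rw [map_add, aeval_X, aeval_rename, h2, neg_add_cancel]
            have h4 := hcl _ hform h3
            rw [map_add, aeval_X, aeval_rename, hy₁, elK_x, elK_hI, ← two_mul] at h4
            have h5 : aeval (ver m y) (ℓ i) = 0 := by
              have h6 : (2 : L) ≠ 0 := by
                have := charZero_of_injective_algebraMap (algebraMap k L).injective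
                exact two_ne_zero
              exact (mul_eq_zero.1 h4).resolve_left h6
            have h6 : aeval y (onSheet m ℓ (rename (hI N c) (ℓ i))) = 0 := by
              rw [aeval_onSheet, aeval_rename, elK_hI]
              exact h5
            have h7 := hEx _ ⟨d * 1, onSheet_form h.mon h.homL
              (h.homL i).rename_isHomogeneous⟩ h6
            rw [aeval_onSheet, aeval_rename, elK_hI] at h7
            have h8 : aeval (y' ∘ hI N c) (ℓ i) = 0 := by
              rw [hyx, aeval_scaleK (h.homL i), h7, mul_zero]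
            rw [h2, h8, neg_zero]
      obtain ⟨e, he⟩ := hG
      apply hG1
      rw [hyl', hyx, elK_smul h.homL, aeval_scaleK he, ← aeval_onSheet,
        hEx _ ⟨d * e, onSheet_form h.mon h.homL he⟩ (by
          rw [aeval_onSheet, ← hy₁]
          exact hG0), mul_zero]

end sheet

/-- finitely many equations of bounded degree with the same zeros -/
theorem exists_same {k : Type} [Field k] {n : ℕ} (S : Set (MvPolynomial (Fin (n + 1)) k))
    (hS : ∀ p ∈ S, IsForm p) : ∃ (T : Finset (MvPolynomial (Fin (n + 1)) k)) (d : ℕ),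
      (T : Set (MvPolynomial (Fin (n + 1)) k)) ⊆ S ∧ 3 ≤ d ∧
      (∀ p : T, ∃ e ≤ d, (p : MvPolynomial (Fin (n + 1)) k).IsHomogeneous e) ∧
      ∀ (L : Type) [Field L] [Algebra k L] (x : Fin (n + 1) → L),
        (∀ p : T, aeval x (p : MvPolynomial (Fin (n + 1)) k) = 0) ↔ ∀ p ∈ S, aeval x p = 0 := by
  obtain ⟨T, hT, hTS⟩ := Pool.Agent.N254.SQ.reduce S
  have hTf : ∀ p : T, ∃ e, (p : MvPolynomial (Fin (n + 1)) k).IsHomogeneous e := fun p =>
    hS p (hT p.2)
  choose e he using hTf
  refine ⟨T, max 3 (Finset.univ.sup e), hT, le_max_left _ _, fun p =>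
    ⟨e p, (Finset.le_sup (f := e) (Finset.mem_univ p)).trans (le_max_right _ _), he p⟩, ?_⟩
  intro L _ _ x
  constructor
  · intro hx p hp
    have h1 := hTS L (algebraMap k L) x (fun p hp => by
      rw [eval_map]
      exact hx ⟨p, hp⟩) p hp
    rw [eval_map] at h1
    exact h1
  · intro hx p
    exact hx _ (hT p.2)

/-- there are no subvarieties of positive dimension of a point -/
theorem no_pos {k : Type} [Field k] {L : Type} [Field L] [Algebra k L] {w : ℕ}
    {y : Fin (0 + 1) → L} (hw : 1 ≤ w) (hy : Gen (𝕜 := k) L w y) : False := by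
  have h1 : (⊤ : IntermediateField k L) = ⊥ := by
    rw [← hy.gen, eq_bot_iff]
    apply IntermediateField.adjoin_le_iff.2
    rintro _ ⟨i, j, hj, rfl⟩
    have h0 : i = j := Fin.ext (by omega)
    rw [h0, div_self hj]
    exact one_mem _
  have h2 : Algebra.IsAlgebraic k L := by
    refine ⟨fun x => ?_⟩
    have h3 : x ∈ (⊥ : IntermediateField k L) := by
      rw [← h1]
      exact IntermediateField.mem_top
    obtain ⟨a, rfl⟩ := IntermediateField.mem_bot.1 h3
    exact isAlgebraic_algebraMap a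
  have h3 := hy.dim
  rw [trdeg_eq_zero (R := k) (A := L)] at h3
  have h4 : (w : Cardinal) = 0 := h3.symm
  rw [Nat.cast_eq_zero] at h4
  omega

end Pool.Agent.U207.QK
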