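import Pool.Agent.U207.QC.Cov
import Pool.Agent.N254.SQ.Spec

/-!
Project QK (helper207), part A: covers over arbitrary fields. The smoothness of the covers for special
parameters.
-/

set_option autoImplicit false

namespace Pool.Agent.U207.QK

open MvPolynomial
open Pool.Agent.U207.QC (pv pd smo_all pf qf)

section

variable {K R : Type} [Field K] [CommRing R] [Algebra K R] {N s c : ℕ} {ι : Type} [Fintype ι]

/-- the values of the quadratic form at the node `a` -/
noncomputable def pvR (B κ : ℕ) (q : ι → MvPolynomial (Fin (N + 1)) K) (C : Fin s × ι → R) (a : R)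
    (h : Fin (N + 1) → R) : R :=
  (∑ j : Fin (N + 1), a ^ (j : ℕ) * h j) ^ 2 +
    ∑ t : Fin s, a ^ (B + κ * (t : ℕ)) * ∑ m, C (t, m) * aeval h (q m)

/-- the values of its partial derivatives -/
noncomputable def pdR (B κ : ℕ) (q : ι → MvPolynomial (Fin (N + 1)) K) (C : Fin s × ι → R) (a : R)
    (h : Fin (N + 1) → R) (j : Fin (N + 1)) : R :=
  2 * (∑ j' : Fin (N + 1), a ^ (j' : ℕ) * h j') * a ^ (j : ℕ) +
    ∑ t : Fin s, a ^ (B + κ * (t : ℕ)) * ∑ m, C (t, m) * aeval h (pderiv j (q m))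

variable {R' : Type} [CommRing R'] [Algebra K R']

theorem pvR_map (φ : R →ₐ[K] R') (B κ : ℕ) (q : ι → MvPolynomial (Fin (N + 1)) K)
    (C : Fin s × ι → R) (a : R) (h : Fin (N + 1) → R) :
    φ (pvR B κ q C a h) = pvR B κ q (fun p => φ (C p)) (φ a) (fun j => φ (h j)) := by
  unfold pvR
  simp only [map_add, map_pow, map_sum, map_mul]
  congr 1
  refine Finset.sum_congr rfl fun t _ => ?_
  congr 1
  refine Finset.sum_congr rfl fun m _ => ?_
  congr 1
  exact (MvPolynomial.comp_aeval_apply h φ (q m))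

theorem pdR_map (φ : R →ₐ[K] R') (B κ : ℕ) (q : ι → MvPolynomial (Fin (N + 1)) K)
    (C : Fin s × ι → R) (a : R) (h : Fin (N + 1) → R) (j : Fin (N + 1)) :
    φ (pdR B κ q C a h j) = pdR B κ q (fun p => φ (C p)) (φ a) (fun j => φ (h j)) j := by
  unfold pdR
  simp only [map_add, map_pow, map_sum, map_mul, map_ofNat]
  congr 1
  refine Finset.sum_congr rfl fun t _ => ?_
  congr 1
  refine Finset.sum_congr rfl fun m _ => ?_
  congr 1
  exact (MvPolynomial.comp_aeval_apply h φ _)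

end

/-- **Special parameters.** -/
theorem smo_special {K : Type} [Field K] [CharZero K] {N s c : ℕ} {ι : Type} [Fintype ι]
    {B κ : ℕ} {q : ι → MvPolynomial (Fin (N + 1)) K} (hq : ∀ m, (q m).IsHomogeneous 2)
    (hκ : 1 ≤ κ) (hs : N + 1 ≤ s) {n : ℕ}
    (hrank : ∀ (Ω : Type) [Field Ω] [Algebra K Ω] (x : Fin (N + 1) → Ω), x ≠ 0 →
      (∀ m, aeval x (q m) = 0) →
      n ≤ (Matrix.of fun (m : ι) (j : Fin (N + 1)) => (aeval x (pderiv j (q m)) : Ω)).rank)
    (htr : ∀ (Ω : Type) [Field Ω] [Algebra K Ω] (x : Fin (N + 1) → Ω) (a0 : Fin (N + 1)),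
      x a0 = 1 → (∀ m, aeval x (q m) = 0) →
      Algebra.trdeg K (Algebra.adjoin K (Set.range x)) ≤ n) :
    ∃ Δ : MvPolynomial (Fin c ⊕ (Fin s × ι)) K, Δ ≠ 0 ∧
      ∀ (Ω : Type) [Field Ω] [Algebra K Ω] (p : Fin c ⊕ (Fin s × ι) → Ω), aeval p Δ ≠ 0 →
        ∀ h : Fin (N + 1) → Ω, h ≠ 0 → ∀ ν : Fin c → Ω,
          (∀ i, ν i * pv B κ q (fun t => p (Sum.inr t)) (p (Sum.inl i)) h = 0) →
          (∀ j, ∑ i, ν i * pd B κ q (fun t => p (Sum.inr t)) (p (Sum.inl i)) h j = 0) →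
            ν = 0 := by
  classical
  let σ := Fin c ⊕ (Fin s × ι)
  let τ := Fin (N + 1) ⊕ Fin c
  let Cp : Fin s × ι → MvPolynomial (σ ⊕ τ) K := fun t => X (Sum.inl (Sum.inr t))
  let ap : Fin c → MvPolynomial (σ ⊕ τ) K := fun i => X (Sum.inl (Sum.inl i))
  let hp : Fin (N + 1) → MvPolynomial (σ ⊕ τ) K := fun j => X (Sum.inr (Sum.inl j))
  let νp : Fin c → MvPolynomial (σ ⊕ τ) K := fun i => X (Sum.inr (Sum.inr i))
  let P : Fin c ⊕ Fin (N + 1) → MvPolynomial (σ ⊕ τ) K :=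
    Sum.elim (fun i => νp i * pvR B κ q Cp (ap i) hp)
      (fun j => ∑ i, νp i * pdR B κ q Cp (ap i) hp j)
  have hval : ∀ (Ω : Type) [Field Ω] [Algebra K Ω] (p : σ → Ω) (x : τ → Ω),
      (∀ i, aeval (Sum.elim p x) (P i) = 0) ↔
        (∀ i, x (Sum.inr i) * pv B κ q (fun t => p (Sum.inr t)) (p (Sum.inl i))
          (fun j => x (Sum.inl j)) = 0) ∧
        ∀ j, ∑ i, x (Sum.inr i) * pd B κ q (fun t => p (Sum.inr t)) (p (Sum.inl i))
          (fun j => x (Sum.inl j)) j = 0 := by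
    intro Ω _ _ p x
    have e1 : ∀ i, aeval (Sum.elim p x) (P (Sum.inl i)) =
        x (Sum.inr i) * pv B κ q (fun t => p (Sum.inr t)) (p (Sum.inl i))
          (fun j => x (Sum.inl j)) := by
      intro i
      change aeval (Sum.elim p x) (νp i * pvR B κ q Cp (ap i) hp) = _
      rw [map_mul, pvR_map]
      simp only [νp, Cp, ap, hp, aeval_X, Sum.elim_inl, Sum.elim_inr]
      rfl
    have e2 : ∀ j, aeval (Sum.elim p x) (P (Sum.inr j)) =
        ∑ i, x (Sum.inr i) * pd B κ q (fun t => p (Sum.inr t)) (p (Sum.inl i))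
          (fun j => x (Sum.inl j)) j := by
      intro j
      change aeval (Sum.elim p x) (∑ i, νp i * pdR B κ q Cp (ap i) hp j) = _
      rw [map_sum]
      refine Finset.sum_congr rfl fun i _ => ?_
      rw [map_mul, pdR_map]
      simp only [νp, Cp, ap, hp, aeval_X, Sum.elim_inl, Sum.elim_inr]
      rfl
    constructor
    · intro h
      exact ⟨fun i => by rw [← e1]; exact h _, fun j => by rw [← e2]; exact h _⟩
    · rintro ⟨h1, h2⟩ (i | j)
      · rw [e1]; exact h1 i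
      · rw [e2]; exact h2 j
  have key : ∀ (j0 : Fin (N + 1)) (i0 : Fin c), ∃ Δ : MvPolynomial σ K, Δ ≠ 0 ∧
      ∀ (Ω : Type) [Field Ω] [Algebra K Ω] (p : σ → Ω) (x : τ → Ω), aeval p Δ ≠ 0 →
        (∀ i, aeval (Sum.elim p x) (P i) = 0) → aeval (Sum.elim p x) (hp j0 * νp i0) = 0 := by
    intro j0 i0
    refine Pool.Agent.N254.SQ.t_spec K σ τ _ P (hp j0 * νp i0) ?_
    intro Ω _ _ y x hy hx
    obtain ⟨h1, h2⟩ := (hval Ω y x).1 hx
    rw [map_mul]
    simp only [hp, νp, aeval_X, Sum.elim_inr]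
    by_cases h0 : (fun j => x (Sum.inl j)) = 0
    · have := congrFun h0 j0
      simp only [Pi.zero_apply] at this
      rw [this, zero_mul]
    · have hy' : AlgebraicIndependent K (Sum.elim (fun i => y (Sum.inl i))
          (fun t => y (Sum.inr t))) := by
        have e : (Sum.elim (fun i => y (Sum.inl i)) (fun t => y (Sum.inr t))) = y := by
          funext z
          rcases z with z | z <;> rfl
        rw [e]
        exact hy
      have h3 := smo_all (a := fun i => y (Sum.inl i)) (C := fun t => y (Sum.inr t)) hq hκ hs hy'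
        (hrank Ω) (htr Ω) h0 (ν := fun i => x (Sum.inr i)) h1 h2
      have h4 := congrFun h3 i0
      simp only [Pi.zero_apply] at h4
      rw [h4, mul_zero]
  choose Δ hΔ hΔ2 using key
  refine ⟨∏ j0, ∏ i0, Δ j0 i0, ?_, ?_⟩
  · rw [Finset.prod_ne_zero_iff]
    intro j0 _
    rw [Finset.prod_ne_zero_iff]
    exact fun i0 _ => hΔ j0 i0
  · intro Ω _ _ p hp0 h hh ν h1 h2
    obtain ⟨j0, hj0⟩ : ∃ j0, h j0 ≠ 0 := by
      by_contra hcon
      push Not at hcon
      exact hh (funext hcon)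
    funext i0
    have h3 : aeval p (Δ j0 i0) ≠ 0 := by
      intro h0
      apply hp0
      rw [map_prod]
      refine Finset.prod_eq_zero (Finset.mem_univ j0) ?_
      rw [map_prod]
      exact Finset.prod_eq_zero (Finset.mem_univ i0) h0
    have h4 := hΔ2 j0 i0 Ω p (Sum.elim h ν) h3 ((hval Ω p (Sum.elim h ν)).2 ⟨h1, h2⟩)
    rw [map_mul] at h4
    simp only [hp, νp, aeval_X, Sum.elim_inr, Sum.elim_inl] at h4
    exact (mul_eq_zero.1 h4).resolve_left hj0

end Pool.Agent.U207.QK
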