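import Pool.Agent.U207.QK.Pts

/-!
Project QK (helper207), part H: rational points over one field.
-/

set_option autoImplicit false

namespace Pool.Agent.U207.QK

open MvPolynomial
open Pool.Agent.N254.SQ (Mon ver ver_prop ver_smul ver_ne_zero)
open Pool.Agent.W602.GT (SubVar GeneralType IsForm coords)
open Pool.Agent.U207.QC (hI xI pt pt_h pt_x pt_hI pt_ne idx_cases)

section decomp

variable {K k : Type} [Field K] [Field k] [Algebra K k]

/-- a polynomial over `k` as a combination of polynomials over `K`, with linearly independent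
coefficients -/
theorem decomp {σ : Type} (p : MvPolynomial σ k) :
    ∃ (J : Type) (_ : Fintype J) (a : J → k) (q : J → MvPolynomial σ K), LinearIndependent K a ∧
      p = ∑ j, C (a j) * map (algebraMap K k) (q j) ∧
      ∀ e, p.IsHomogeneous e → ∀ j, (q j).IsHomogeneous e := by
  classical
  let b := Module.Basis.ofVectorSpace K k
  let S : Finset _ := p.support.biUnion fun α => (b.repr (coeff α p)).support
  let q : S → MvPolynomial σ K := fun j => ∑ α ∈ p.support, monomial α (b.repr (coeff α p) j)
  have hq : ∀ j α, coeff α (q j) = b.repr (coeff α p) j := by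
    intro j α
    simp only [q, coeff_sum, coeff_monomial]
    rw [Finset.sum_ite_eq' p.support α]
    split_ifs with h
    · rfl
    · rw [notMem_support_iff.1 h, map_zero]
      rfl
  refine ⟨S, inferInstance, fun j => b j, q, b.linearIndependent.comp _ Subtype.val_injective,
    ?_, ?_⟩
  · ext α
    rw [coeff_sum]
    simp only [coeff_C_mul, coeff_map, hq]
    have h1 : coeff α p = ∑ i ∈ (b.repr (coeff α p)).support,
        (b.repr (coeff α p)) i • b i := by
      conv_lhs => rw [← b.linearCombination_repr (coeff α p)]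
      rw [Finsupp.linearCombination_apply]
      rfl
    by_cases hα : α ∈ p.support
    · have h2 : (b.repr (coeff α p)).support ⊆ S := by
        intro i hi
        exact Finset.mem_biUnion.2 ⟨α, hα, hi⟩
      conv_lhs => rw [h1]
      rw [Finset.sum_subset h2 fun i _ hi => by
        rw [Finsupp.notMem_support_iff.1 hi, zero_smul]]
      rw [← Finset.sum_coe_sort S]
      refine Finset.sum_congr rfl fun i _ => ?_
      rw [Algebra.smul_def, mul_comm]
    · have h3 : coeff α p = 0 := notMem_support_iff.1 hα
      rw [h3, map_zero]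
      symm
      refine Finset.sum_eq_zero fun i _ => ?_
      rw [Finsupp.coe_zero, Pi.zero_apply, map_zero, mul_zero]
  · intro e he j α hα
    rw [hq] at hα
    apply he
    intro h0
    apply hα
    rw [h0, map_zero]
    rfl

/-- the values at points over `K` -/
theorem decomp_zero {σ J : Type} [Fintype J] {a : J → k} (ha : LinearIndependent K a)
    {q : J → MvPolynomial σ K} {x : σ → K}
    (h : aeval (fun j => algebraMap K k (x j)) (∑ j, C (a j) * map (algebraMap K k) (q j)) = 0)
    (j : J) : aeval x (q j) = 0 := by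
  rw [map_sum] at h
  have h1 : ∀ j, aeval (fun j => algebraMap K k (x j)) (C (a j) * map (algebraMap K k) (q j)) =
      (aeval x (q j)) • a j := by
    intro j
    rw [map_mul, aeval_C, aeval_map_algebraMap, Algebra.smul_def, mul_comm]
    congr 1
    exact MvPolynomial.aeval_algebraMap_apply k x (q j)
  rw [Finset.sum_congr rfl fun j _ => h1 j] at h
  exact Fintype.linearIndependent_iff.1 ha _ h j

end decomp

section points

variable {K k : Type} [Field K] [Field k] [Algebra K k] {n : ℕ} {ι : Type}

/-- the form `G` over `k` vanishes at all `K`-rational points of `F = 0` -/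
def OnPoints (F : ι → MvPolynomial (Fin (n + 1)) K) (G : MvPolynomial (Fin (n + 1)) k) : Prop :=
  ∀ x : Fin (n + 1) → K, x ≠ 0 → (∀ i, aeval x (F i) = 0) →
    aeval (fun j => algebraMap K k (x j)) G = 0

variable (F : ι → MvPolynomial (Fin (n + 1)) K)

theorem onPoints_idl : Idl (OnPoints (k := k) F) where
  zero := by
    intro x _ _
    exact map_zero _
  add := by
    intro e G G' _ _ hG hG' x hx hxF
    rw [map_add, hG x hx hxF, hG' x hx hxF, add_zero]
  mul := by
    intro G F _ _ hG x hx hxF
    rw [map_mul, hG x hx hxF, zero_mul]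
  rad := by
    intro G r _ hG x hx hxF
    have h1 := hG x hx hxF
    rw [map_pow] at h1
    exact eq_zero_of_pow_eq_zero h1

/-- a point over `K` is a zero of `F` as a point over `k` -/
theorem zero_iff (p : MvPolynomial (Fin (n + 1)) K) (x : Fin (n + 1) → K) :
    aeval (fun j => algebraMap K k (x j)) p = 0 ↔ aeval x p = 0 := by
  have h1 : aeval (fun j => algebraMap K k (x j)) p = algebraMap K k (aeval x p) :=
    MvPolynomial.aeval_algebraMap_apply k x p
  rw [h1]
  exact map_eq_zero _

theorem zero_iff' (p : MvPolynomial (Fin (n + 1)) K) (x : Fin (n + 1) → K) :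
    aeval (fun j => algebraMap K k (x j)) (map (algebraMap K k) p) = 0 ↔ aeval x p = 0 := by
  rw [aeval_map_algebraMap]
  exact zero_iff p x

variable {F}

/-- the components of the closure of the set of rational points are defined over `K` -/
theorem comp_defined {L : Type} [Field L] [Algebra k L] {y : Fin (n + 1) → L}
    (hc : Component (OnPoints (k := k) F) y) (Ω : Type) [Field Ω] [Algebra k Ω]
    (x : Fin (n + 1) → Ω)
    (hx : ∀ p : MvPolynomial (Fin (n + 1)) K, (∃ e, p.IsHomogeneous e) →
      aeval y (map (algebraMap K k) p) = 0 → aeval x (map (algebraMap K k) p) = 0)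
    (p : MvPolynomial (Fin (n + 1)) k) (hp : p ∈ Eqs (k := k) y) : aeval x p = 0 := by
  obtain ⟨hc1, H, ⟨e', he'⟩, hHy, hc2⟩ := hc
  obtain ⟨⟨e, he⟩, hpy⟩ := hp
  obtain ⟨J, _, a, q, ha, hpq, hqh⟩ := decomp (K := K) p
  have h1 : ∀ j, aeval y (map (algebraMap K k) (q j)) = 0 := by
    intro j
    have h2 : OnPoints (k := k) F (map (algebraMap K k) (q j) * H) := by
      intro z hz hzF
      have h3 := hc2 p ⟨e, he⟩ hpy z hz hzF
      rw [map_mul] at h3 ⊢
      rcases mul_eq_zero.1 h3 with h4 | h4
      · rw [hpq] at h4
        have h5 := decomp_zero ha h4 j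
        rw [(zero_iff' (q j) z).2 h5, zero_mul]
      · rw [h4, mul_zero]
    have h3 := hc1 _ ⟨e + e', ((hqh e he j).map _).mul he'⟩ h2
    rw [map_mul] at h3
    exact (mul_eq_zero.1 h3).resolve_right hHy
  rw [hpq, map_sum]
  refine Finset.sum_eq_zero fun j _ => ?_
  rw [map_mul, hx (q j) ⟨e, hqh e he j⟩ (h1 j), mul_zero]

variable {N d c : ℕ} {m : Fin (N + 1) → Fin (n + 1) → ℕ}
  {P ℓ : Fin c → MvPolynomial (Fin (N + 1)) K}

/-- the sheets as subsets of the cover: points -/
theorem Cv.downQ (h : Cv n N d c m F P ℓ) {G : MvPolynomial (Fin (N + c + 1)) k}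
    (hG : OnPoints (coverForm P) G) :
    OnPoints F (onSheet m (fun i => MvPolynomial.map (algebraMap K k) (ℓ i)) G) := by
  intro x hx hxF
  have h1 := hG (elK ℓ (ver m x)) (elK_ne (ver_ne_zero h.mon h.hd1 hx)) fun i => h.mem hxF i
  rw [aeval_onSheet]
  have h2 : elK (fun i => MvPolynomial.map (algebraMap K k) (ℓ i)) (ver m fun j => algebraMap K k (x j)) =
      fun l => algebraMap K k (elK ℓ (ver m x) l) := by
    have hv : ver m (fun j => algebraMap K k (x j)) = fun a => algebraMap K k (ver m x a) := by
      funext a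
      unfold ver
      rw [map_prod]
      exact Finset.prod_congr rfl fun j _ => by rw [map_pow]
    funext l
    rcases idx_cases l with ⟨j, rfl⟩ | ⟨i, rfl⟩
    · rw [elK_h, elK_h, hv]
    · rw [elK_x, elK_x, hv, aeval_map_algebraMap]
      exact MvPolynomial.aeval_algebraMap_apply k (ver m x) (ℓ i)
  rw [h2]
  exact h1

end points

end Pool.Agent.U207.QK
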