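import Pool.Agent.U207.QK.Cur
import Pool.Agent.U207.QC.TrS
import Pool.Agent.N254.SQ.Zblv
import Pool.Agent.N254.SQ.Zred
import Pool.Agent.N254.SQ.Zsurj

/-!
Project QK (helper207), part J: integral points of quasi-projective schemes.
-/

set_option autoImplicit false

namespace Pool.Agent.U207.QK

open MvPolynomial NumberField IsDedekindDomain
open scoped LinearAlgebra.Projectivization
open Pool.Agent.N254.SQ
open Pool.Agent.U207.QC (hI xI pt pt_h pt_x pt_hI pt_ne idx_cases)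

section ring

variable {R Ω : Type} [CommRing R] [Field Ω] {N c : ℕ}

theorem eval₂_cover (φ : R →+* Ω) (P : Fin c → MvPolynomial (Fin (N + 1)) R) (i : Fin c)
    (y : Fin (N + c + 1) → Ω) :
    eval₂ φ y (coverForm P i) = y (xI N c i) ^ 2 - eval₂ φ (y ∘ hI N c) (P i) := by
  unfold coverForm
  rw [eval₂_sub, eval₂_pow, eval₂_X, eval₂_rename]

theorem zbl_scale (φ : R →+* Ω) {M e : ℕ} {p : MvPolynomial (Fin (M + 1)) R}
    (hp : p.IsHomogeneous e) (s : Ω) (x : Fin (M + 1) → Ω) :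
    eval₂ φ (s • x) p = s ^ e * eval₂ φ x p := by
  rw [← zr_scale φ hp]
  rfl

/-- the first coordinates of a point of the cover are not all zero -/
theorem zbl_base {φ : R →+* Ω} {P : Fin c → MvPolynomial (Fin (N + 1)) R}
    (hP : ∀ i, (P i).IsHomogeneous 2) {y : Fin (N + c + 1) → Ω} (hy : y ≠ 0)
    (h : ∀ i, eval₂ φ y (coverForm P i) = 0) : y ∘ hI N c ≠ 0 := by
  intro h0
  apply hy
  funext l
  rcases idx_cases l with ⟨j, rfl⟩ | ⟨i, rfl⟩
  · exact congrFun h0 j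
  · have h1 := h i
    rw [eval₂_cover, h0] at h1
    have h2 : eval₂ φ (0 : Fin (N + 1) → Ω) (P i) = 0 := by
      have h3 := zbl_scale φ (hP i) 0 (0 : Fin (N + 1) → Ω)
      rw [zero_pow (by norm_num), zero_mul, smul_zero] at h3
      exact h3
    rw [h2, sub_zero] at h1
    exact eq_zero_of_pow_eq_zero h1

/-- the point of the sheet over `y` -/
noncomputable def elZ (φ : R →+* Ω) (ℓ : Fin c → MvPolynomial (Fin (N + 1)) R)
    (y : Fin (N + 1) → Ω) : Fin (N + c + 1) → Ω := pt y fun i => eval₂ φ y (ℓ i)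

variable {φ : R →+* Ω} {ℓ : Fin c → MvPolynomial (Fin (N + 1)) R}

theorem elZ_h (y : Fin (N + 1) → Ω) (j : Fin (N + 1)) : elZ φ ℓ y (hI N c j) = y j := pt_h _ _ j

theorem elZ_x (y : Fin (N + 1) → Ω) (i : Fin c) : elZ φ ℓ y (xI N c i) = eval₂ φ y (ℓ i) :=
  pt_x _ _ i

theorem elZ_hI (y : Fin (N + 1) → Ω) : elZ φ ℓ y ∘ hI N c = y := pt_hI _ _

theorem elZ_ne {y : Fin (N + 1) → Ω} (hy : y ≠ 0) : elZ φ ℓ y ≠ 0 := pt_ne hy _

theorem elZ_smul (hl : ∀ i, (ℓ i).IsHomogeneous 1) (s : Ω) (y : Fin (N + 1) → Ω) :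
    elZ φ ℓ (s • y) = s • elZ φ ℓ y := by
  funext l
  rcases idx_cases l with ⟨j, rfl⟩ | ⟨i, rfl⟩
  · rw [elZ_h, Pi.smul_apply, Pi.smul_apply, elZ_h]
  · rw [elZ_x, Pi.smul_apply, elZ_x, zbl_scale φ (hl i), pow_one, smul_eq_mul]

/-- the fibres of the projection of the cover are finite -/
theorem zbl_fib (φ : R →+* Ω) {P : Fin c → MvPolynomial (Fin (N + 1)) R}
    (hP : ∀ i, (P i).IsHomogeneous 2) (h0 : Fin (N + 1) → Ω) (hh0 : h0 ≠ 0) :
    {Q : ℙ Ω (Fin (N + c + 1) → Ω) | (∀ i, eval₂ φ Q.rep (coverForm P i) = 0) ∧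
      ∃ s : Ω, Q.rep ∘ hI N c = s • h0}.Finite := by
  classical
  have hfin : {x : Fin c → Ω | ∀ i, x i ^ 2 = eval₂ φ h0 (P i)}.Finite := by
    have h1 : ∀ a : Ω, {t : Ω | t ^ 2 = a}.Finite := by
      intro a
      by_cases h : ∃ t, t ^ 2 = a
      · obtain ⟨t, rfl⟩ := h
        refine (Set.toFinite {t, -t}).subset ?_
        intro u hu
        rcases sq_eq_sq_iff_eq_or_eq_neg.1 hu with h | h
        · exact Or.inl h
        · exact Or.inr h
      · push Not at h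
        convert Set.finite_empty
        ext t
        simpa using h t
    have h2 := Set.Finite.pi' fun i => h1 (eval₂ φ h0 (P i))
    exact h2
  refine (hfin.image fun x => Projectivization.mk Ω (pt h0 x) (pt_ne hh0 x)).subset ?_
  rintro Q ⟨hQ, s, hs⟩
  have hb := zbl_base hP Q.rep_nonzero hQ
  have hs0 : s ≠ 0 := by
    rintro rfl
    rw [zero_smul] at hs
    exact hb hs
  refine ⟨fun i => s⁻¹ * Q.rep (xI N c i), fun i => ?_, ?_⟩
  · have h1 := hQ i
    rw [eval₂_cover, hs, zbl_scale φ (hP i), sub_eq_zero] at h1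
    rw [mul_pow, h1]
    field_simp
  · change Projectivization.mk Ω _ _ = Q
    rw [← Q.mk_rep, Projectivization.mk_eq_mk_iff']
    refine ⟨s⁻¹, ?_⟩
    rw [Q.mk_rep]
    funext l
    rcases idx_cases l with ⟨j, rfl⟩ | ⟨i, rfl⟩
    · rw [pt_h, Pi.smul_apply, smul_eq_mul]
      have h1 := congrFun hs j
      simp only [Function.comp, Pi.smul_apply, smul_eq_mul] at h1
      rw [h1]
      field_simp
    · rw [pt_x, Pi.smul_apply, smul_eq_mul]

end ring

/-! ### reductions -/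

section red

variable {K : Type} [Field K] {L : Type} [Field L] [NumberField L] [Algebra K L]

theorem val_int [NumberField K] (v : HeightOneSpectrum (𝓞 L)) (a : 𝓞 K) :
    v.valuation L (((algebraMap K L).comp (algebraMap (𝓞 K) K)) a) ≤ 1 := by
  have h1 : ((algebraMap K L).comp (algebraMap (𝓞 K) K)) a = algebraMap (𝓞 L) L
      ⟨algebraMap K L a, (NumberField.RingOfIntegers.isIntegral_coe a).map
        (IsScalarTower.toAlgHom ℤ K L)⟩ := rfl
  rw [h1]
  exact v.valuation_le_one _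

theorem val_eval [NumberField K] (v : HeightOneSpectrum (𝓞 L)) {M e : ℕ}
    {p : MvPolynomial (Fin (M + 1)) (𝓞 K)} (hp : p.IsHomogeneous e) (x : Fin (M + 1) → L)
    (B : WithZero (Multiplicative ℤ)) (hx : ∀ j, v.valuation L (x j) ≤ B) :
    v.valuation L (eval₂ ((algebraMap K L).comp (algebraMap (𝓞 K) K)) x p) ≤ B ^ e := by
  rw [eval₂_eq']
  refine Valuation.map_sum_le _ fun α hα => ?_
  have h1 : ∑ j, α j = e := by
    have h2 := hp (mem_support_iff.1 hα)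
    rw [Finsupp.weight_apply, Finsupp.sum_fintype _ _ (fun _ => by simp)] at h2
    simpa using h2
  rw [map_mul, map_prod]
  calc _ ≤ 1 * ∏ j, B ^ α j := by
        refine mul_le_mul' (val_int v _) (Finset.prod_le_prod' fun j _ => ?_)
        rw [map_pow]
        exact pow_le_pow_left₀ zero_le (hx j) _
    _ = B ^ e := by rw [one_mul, Finset.prod_pow_eq_pow_sum, h1]

variable [NumberField K] {N c : ℕ} {κ : Type} {T : κ → MvPolynomial (Fin (N + 1)) (𝓞 K)}

/-- reductions of points of the cover and of their images -/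
theorem red_down (hT : ∀ k, ∃ e, (T k).IsHomogeneous e) {y : Fin (N + c + 1) → L}
    (hy : y ∘ hI N c ≠ 0) {v : HeightOneSpectrum (𝓞 L)}
    (h : RedNotIn (fun k => rename (hI N c) (T k)) y v) : RedNotIn T (y ∘ hI N c) v := by
  obtain ⟨c0, h1, ⟨b, hb⟩, k, hk⟩ := h
  obtain ⟨e, he⟩ := hT k
  rw [eval₂_rename] at hk
  obtain ⟨j0, -, hj0⟩ := Finset.exists_max_image (Finset.univ : Finset (Fin (N + 1)))
    (fun j => v.valuation L (y (hI N c j))) ⟨0, Finset.mem_univ _⟩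
  have hmax : ∀ j, v.valuation L (y (hI N c j)) ≤ v.valuation L (y (hI N c j0)) := fun j =>
    hj0 j (Finset.mem_univ j)
  have hy0 : y (hI N c j0) ≠ 0 := by
    intro h0
    apply hy
    funext j
    have h2 := hmax j
    rw [h0, map_zero] at h2
    exact (Valuation.zero_iff _).1 (le_antisymm h2 zero_le)
  have hc0 : c0 ≠ 0 := by
    rintro rfl
    rw [zero_mul, map_zero] at hb
    exact zero_ne_one hb
  have hv0 : v.valuation L (y (hI N c j0)) ≠ 0 := (Valuation.ne_zero_iff _).2 hy0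
  have hvc : v.valuation L (c0 * y (hI N c j0)) ≠ 0 :=
    (Valuation.ne_zero_iff _).2 (mul_ne_zero hc0 hy0)
  have hle : 1 ≤ v.valuation L (c0 * y (hI N c j0)) ^ e := by
    rw [← hk]
    refine val_eval v he _ _ fun j => ?_
    change v.valuation L (c0 * y (hI N c j)) ≤ _
    rw [map_mul, map_mul]
    exact mul_le_mul_right (hmax j) _
  have hone : v.valuation L (c0 * y (hI N c j0)) ^ e = 1 :=
    le_antisymm (pow_le_one₀ zero_le (h1 _)) hle
  refine ⟨(y (hI N c j0))⁻¹, fun j => ?_, ⟨j0, ?_⟩, k, ?_⟩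
  · rw [map_mul, map_inv₀]
    calc (v.valuation L (y (hI N c j0)))⁻¹ * v.valuation L (y (hI N c j))
        ≤ (v.valuation L (y (hI N c j0)))⁻¹ * v.valuation L (y (hI N c j0)) :=
          mul_le_mul_right (hmax j) _
      _ = 1 := inv_mul_cancel₀ hv0
  · simp only [Function.comp]
    rw [inv_mul_cancel₀ hy0, map_one]
  · have h3 : (fun j => (y (hI N c j0))⁻¹ * (y ∘ hI N c) j) =
        (c0 * y (hI N c j0))⁻¹ • ((fun l => c0 * y l) ∘ hI N c) := by
      funext j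
      simp only [Function.comp, Pi.smul_apply, smul_eq_mul]
      field_simp
    rw [h3, zbl_scale _ he, map_mul, map_pow, map_inv₀, inv_pow, hone, inv_one, one_mul]
    exact hk

/-- reductions of points of the sheet -/
theorem red_up {ℓ : Fin c → MvPolynomial (Fin (N + 1)) (𝓞 K)} (hl : ∀ i, (ℓ i).IsHomogeneous 1)
    {y : Fin (N + 1) → L} {v : HeightOneSpectrum (𝓞 L)} (h : RedNotIn T y v) (s : L) (hs : s ≠ 0) :
    RedNotIn (fun k => rename (hI N c) (T k))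
      (s • elZ ((algebraMap K L).comp (algebraMap (𝓞 K) K)) ℓ y) v := by
  obtain ⟨c0, h1, ⟨b, hb⟩, k, hk⟩ := h
  have h3 : ∀ l, c0 * s⁻¹ * (s • elZ ((algebraMap K L).comp (algebraMap (𝓞 K) K)) ℓ y) l =
      elZ ((algebraMap K L).comp (algebraMap (𝓞 K) K)) ℓ (fun j => c0 * y j) l := by
    intro l
    have h4 := congrFun (elZ_smul (φ := (algebraMap K L).comp (algebraMap (𝓞 K) K)) hl c0 y) l
    have h5 : c0 • y = fun j => c0 * y j := rfl
    rw [h5] at h4
    rw [h4, Pi.smul_apply, Pi.smul_apply, smul_eq_mul, smul_eq_mul]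
    field_simp
  refine ⟨c0 * s⁻¹, fun l => ?_, ⟨hI N c b, ?_⟩, k, ?_⟩
  · rw [h3]
    rcases idx_cases l with ⟨j, rfl⟩ | ⟨i, rfl⟩
    · rw [elZ_h]
      exact h1 j
    · rw [elZ_x]
      refine (val_eval v (hl i) _ 1 h1).trans ?_
      rw [one_pow]
  · rw [h3, elZ_h]
    exact hb
  · rw [funext h3, eval₂_rename, elZ_hI]
    exact hk

end red

/-! ### the main step -/

theorem zbl_main {K : Type} [Field K] [NumberField K] (σ : K →+* ℂ) {n N d c : ℕ}
    {m : Fin (N + 1) → Fin (n + 1) → ℕ} (hm : Mon n N d m) (hd : 1 ≤ d) {κ : Type}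
    {P ℓ : Fin c → MvPolynomial (Fin (N + 1)) (𝓞 K)} (hP : ∀ i, (P i).IsHomogeneous 2)
    (hl : ∀ i, (ℓ i).IsHomogeneous 1)
    (PF PG : ZbPred K n) (P₁ P₂ : ZbPred K N)
    (T : κ → MvPolynomial (Fin (n + 1)) (𝓞 K)) (T' : κ → MvPolynomial (Fin (N + 1)) (𝓞 K))
    (hT'h : ∀ k, ∃ e, (T' k).IsHomogeneous e)
    (sF : ∀ (Ω : Type) [Field Ω] (τ : K →+* Ω) (c : Ω) (x : Fin (n + 1) → Ω),
      PF Ω τ x → PF Ω τ (c • x))
    (sG : ∀ (Ω : Type) [Field Ω] (τ : K →+* Ω) (c : Ω) (x : Fin (n + 1) → Ω),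
      PG Ω τ x → PG Ω τ (c • x))
    (s₂ : ∀ (Ω : Type) [Field Ω] (τ : K →+* Ω) (c : Ω) (x : Fin (N + 1) → Ω),
      P₂ Ω τ x → P₂ Ω τ (c • x))
    (hFA : ∀ (Ω : Type) [Field Ω] (τ : K →+* Ω) (x : Fin (n + 1) → Ω), PF Ω τ x → ∀ i,
      eval₂ (τ.comp (algebraMap (𝓞 K) K)) (elZ (τ.comp (algebraMap (𝓞 K) K)) ℓ (ver m x))
        (coverForm P i) = 0)
    (v₁ : ∀ (Ω : Type) [Field Ω] (τ : K →+* Ω) (x : Fin (n + 1) → Ω),
      PF Ω τ x → P₁ Ω τ (ver m x))
    (w₁ : ∀ (Ω : Type) [Field Ω] (τ : K →+* Ω) (y : Fin (N + 1) → Ω), y ≠ 0 → P₁ Ω τ y →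
      ∃ (x : Fin (n + 1) → Ω) (c : Ω), x ≠ 0 ∧ c ≠ 0 ∧ y = c • ver m x ∧ PF Ω τ x)
    (v₂ : ∀ (Ω : Type) [Field Ω] (τ : K →+* Ω) (x : Fin (n + 1) → Ω),
      PF Ω τ x → PG Ω τ x → P₂ Ω τ (ver m x))
    (w₂ : ∀ (Ω : Type) [Field Ω] (τ : K →+* Ω) (y : Fin (N + 1) → Ω), y ≠ 0 → P₂ Ω τ y →
      ∃ (x : Fin (n + 1) → Ω) (c : Ω), x ≠ 0 ∧ c ≠ 0 ∧ y = c • ver m x ∧ PG Ω τ x)
    (hlift : ∀ f : ℂ → Fin (N + c + 1) → ℂ, Differentiable ℂ f → (∀ z, f z ≠ 0) →
      (∀ z i, eval₂ (σ.comp (algebraMap (𝓞 K) K)) (f z) (coverForm P i) = 0) →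
      (¬ ∀ z w, ∃ c : ℂ, f w = c • f z) →
      ∃ F₁ : ℂ → Fin (n + 1) → ℂ, Differentiable ℂ F₁ ∧ (∀ z, F₁ z ≠ 0) ∧
        (∀ z, PF ℂ σ (F₁ z)) ∧ (¬ ∀ z w, ∃ c : ℂ, F₁ w = c • F₁ z) ∧
        ∀ z, f z ∘ hI N c = ver m (F₁ z))
    (hT : ∀ (Ω : Type) [Field Ω] (τ : K →+* Ω) (x : Fin (n + 1) → Ω) (c : Ω), c ≠ 0 →
      ((∃ k, eval₂ (τ.comp (algebraMap (𝓞 K) K)) (c • ver m x) (T' k) ≠ 0) ↔
        ∃ k, eval₂ (τ.comp (algebraMap (𝓞 K) K)) x (T k) ≠ 0))
    (hR : ∀ (L : Type) [Field L] [NumberField L] [Algebra K L] (x : Fin (n + 1) → L) (c : L),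
      x ≠ 0 → c ≠ 0 → ∀ v : HeightOneSpectrum (𝓞 L),
        RedNotIn T' (c • ver m x) v ↔ RedNotIn T x v)
    (h1 : ZbBLV σ (zbZ (coverForm P)) (fun Ω _ τ y => P₁ Ω τ (y ∘ hI N c))
      (fun k => rename (hI N c) (T' k)))
    (h2 : ZbBLV σ (zbZ (coverForm P)) (fun Ω _ τ y => P₂ Ω τ (y ∘ hI N c))
      (fun k => rename (hI N c) (T' k))) : ZbBLV σ PF PG T := by
  classical
  have hT1 : ∀ (Ω : Type) [Field Ω] (τ : K →+* Ω) (x : Fin (n + 1) → Ω),
      (∃ k, eval₂ (τ.comp (algebraMap (𝓞 K) K)) (ver m x) (T' k) ≠ 0) ↔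
        ∃ k, eval₂ (τ.comp (algebraMap (𝓞 K) K)) x (T k) ≠ 0 := by
    intro Ω _ τ x
    have := hT Ω τ x 1 one_ne_zero
    rwa [one_smul] at this
  have hTY : ∀ (Ω : Type) [Field Ω] (τ : K →+* Ω) (y : Fin (N + c + 1) → Ω),
      (∃ k, eval₂ (τ.comp (algebraMap (𝓞 K) K)) y (rename (hI N c) (T' k)) ≠ 0) ↔
        ∃ k, eval₂ (τ.comp (algebraMap (𝓞 K) K)) (y ∘ hI N c) (T' k) ≠ 0 := by
    intro Ω _ τ y
    simp only [eval₂_rename]
  have hcsm : ∀ (Ω : Type) [Field Ω] (s : Ω) (y : Fin (N + c + 1) → Ω),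
      (s • y) ∘ hI N c = s • (y ∘ hI N c) := fun Ω _ s y => rfl
  -- from the image to the equations
  have back : ∀ (Ω : Type) [Field Ω] (τ : K →+* Ω) (x : Fin (n + 1) → Ω), x ≠ 0 →
      P₂ Ω τ (ver m x) → PG Ω τ x := by
    intro Ω _ τ x hx hP
    obtain ⟨x', c, -, -, hxc, hG⟩ := w₂ Ω τ (ver m x) (ver_ne_zero hm hd hx) hP
    obtain ⟨c', hc'⟩ := ver_prop hm hd hx hxc
    rw [hc']
    exact sG Ω τ c' x' hG
  -- curves in the cover lie over the image of `V`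
  have hY := h1.1 (by
    rintro f hf hf0 hfA - ⟨z₀, w₀, hnc⟩
    obtain ⟨F₁, -, hF0, hFS, -, hfF⟩ := hlift f hf hf0 hfA (fun h => by
      obtain ⟨c, hc⟩ := h z₀ w₀
      exact hnc c hc)
    intro z
    rw [hfF z]
    exact v₁ ℂ σ (F₁ z) (hFS z))
  -- curves
  have hcurves : (∀ f : ℂ → Fin (n + 1) → ℂ, Differentiable ℂ f → (∀ z, f z ≠ 0) →
      (∀ z, PF ℂ σ (f z)) →
      (∀ z, ∃ k, eval₂ (σ.comp (algebraMap (𝓞 K) K)) (f z) (T k) ≠ 0) →
      (∃ z w, ∀ c : ℂ, f w ≠ c • f z) → ∀ z, PG ℂ σ (f z)) ↔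
      (∀ f : ℂ → Fin (N + c + 1) → ℂ, Differentiable ℂ f → (∀ z, f z ≠ 0) →
      (∀ z, zbZ (coverForm P) ℂ σ (f z)) →
      (∀ z, ∃ k, eval₂ (σ.comp (algebraMap (𝓞 K) K)) (f z) (rename (hI N c) (T' k)) ≠ 0) →
      (∃ z w, ∀ c : ℂ, f w ≠ c • f z) → ∀ z, P₂ ℂ σ (f z ∘ hI N c)) := by
    constructor
    · rintro h f hf hf0 hfA hfT ⟨z₀, w₀, hnc⟩
      obtain ⟨F₁, hF₁, hF0, hFS, hFn, hfF⟩ := hlift f hf hf0 hfA (fun h => by
        obtain ⟨c, hc⟩ := h z₀ w₀
        exact hnc c hc)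
      push Not at hFn
      have h4 := h F₁ hF₁ hF0 hFS (fun z => (hT1 ℂ σ (F₁ z)).1 (by
          have h5 := (hTY ℂ σ (f z)).1 (hfT z)
          rw [hfF z] at h5
          exact h5)) hFn
      intro z
      rw [hfF z]
      exact v₂ ℂ σ (F₁ z) (hFS z) (h4 z)
    · rintro h f hf hf0 hfF hfT ⟨z₀, w₀, hnc⟩ z
      have h3 : Differentiable ℂ fun z => elZ (σ.comp (algebraMap (𝓞 K) K)) ℓ (ver m (f z)) := by
        have h5 := Pool.Agent.U207.QC.diff_el (ℓ := fun i => map (σ.comp (algebraMap (𝓞 K) K)) (ℓ i))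
          (ver_diff (m := m) hf).differentiableOn (U := Set.univ)
        rw [differentiableOn_univ] at h5
        convert h5 using 2
        unfold elZ Pool.Agent.U207.QC.el
        congr 1
        funext i
        exact (eval_map (σ.comp (algebraMap (𝓞 K) K)) _ (ℓ i)).symm
      have h4 := h (fun z => elZ (σ.comp (algebraMap (𝓞 K) K)) ℓ (ver m (f z))) h3
        (fun z => elZ_ne (ver_ne_zero hm hd (hf0 z)))
        (fun z i => hFA ℂ σ (f z) (hfF z) i) (fun z => (hTY ℂ σ _).2 (by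
          rw [elZ_hI]
          exact (hT1 ℂ σ (f z)).2 (hfT z)))
        ⟨z₀, w₀, fun c hc => by
            have h6 : ver m (f w₀) = c • ver m (f z₀) := by
              have h7 := congrArg (fun v => v ∘ hI N _) hc
              simp only [elZ_hI, hcsm] at h7
              exact h7
            obtain ⟨c', hc'⟩ := ver_prop hm hd (hf0 w₀) h6
            exact hnc c' hc'⟩ z
      rw [elZ_hI] at h4
      exact back ℂ σ (f z) (hf0 z) h4
  -- points
  have hpoints : (∀ (L : Type) [Field L] [NumberField L] [Algebra K L]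
      (S : Set (HeightOneSpectrum (𝓞 L))), S.Finite →
      ({P : ℙ L (Fin (n + 1) → L) | PF L (algebraMap K L) P.rep ∧
      (∃ k, eval₂ ((algebraMap K L).comp (algebraMap (𝓞 K) K)) P.rep (T k) ≠ 0) ∧
      ∀ v ∉ S, RedNotIn T P.rep v} \ {P | PG L (algebraMap K L) P.rep}).Finite) ↔
      (∀ (L : Type) [Field L] [NumberField L] [Algebra K L]
      (S : Set (HeightOneSpectrum (𝓞 L))), S.Finite →
      ({Q : ℙ L (Fin (N + c + 1) → L) | zbZ (coverForm P) L (algebraMap K L) Q.rep ∧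
      (∃ k, eval₂ ((algebraMap K L).comp (algebraMap (𝓞 K) K)) Q.rep
        (rename (hI N c) (T' k)) ≠ 0) ∧
      ∀ v ∉ S, RedNotIn (fun k => rename (hI N c) (T' k)) Q.rep v} \
        {Q | P₂ L (algebraMap K L) (Q.rep ∘ hI N c)}).Finite) := by
    constructor
    · intro h L _ _ _ S hS
      refine ((hY L S hS).union ((h L S hS).biUnion fun Q _ =>
        zbl_fib ((algebraMap K L).comp (algebraMap (𝓞 K) K)) hP (ver m Q.rep)
          (ver_ne_zero hm hd Q.rep_nonzero))).subset ?_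
      rintro Q ⟨⟨hQA, hQT, hQR⟩, hQq⟩
      have hQA' : ∀ i, eval₂ ((algebraMap K L).comp (algebraMap (𝓞 K) K)) Q.rep
        (coverForm P i) = 0 := hQA
      have hb := zbl_base hP Q.rep_nonzero hQA'
      by_cases hP1 : P₁ L (algebraMap K L) (Q.rep ∘ hI N c)
      · right
        obtain ⟨x, b, hx0, hb0, hyx, hxF⟩ := w₁ L (algebraMap K L) (Q.rep ∘ hI N c) hb hP1
        obtain ⟨u, hu⟩ := Projectivization.exists_smul_eq_mk_rep L x hx0
        have hu' : (Projectivization.mk L x hx0).rep = (u : L) • x := hu.symm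
        have hub : (u : L) ^ d ≠ 0 := pow_ne_zero _ u.ne_zero
        have hc1 : b * ((u : L) ^ d)⁻¹ ≠ 0 := mul_ne_zero hb0 (inv_ne_zero hub)
        have hrep : Q.rep ∘ hI N c =
            (b * ((u : L) ^ d)⁻¹) • ver m (Projectivization.mk L x hx0).rep := by
          rw [hu', ver_smul hm, smul_smul, mul_assoc, inv_mul_cancel₀ hub, mul_one, hyx]
        refine Set.mem_biUnion (x := Projectivization.mk L x hx0)
          ⟨⟨?_, ?_, ?_⟩, fun hxG => hQq ?_⟩ ⟨hQA', _, hrep⟩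
        · rw [hu']
          exact sF L _ _ _ hxF
        · have hQT' := (hTY L _ _).1 hQT
          rw [hrep] at hQT'
          exact (hT L _ _ _ hc1).1 hQT'
        · intro v hv
          have h5 := red_down hT'h hb (hQR v hv)
          rw [hrep] at h5
          exact (hR L _ _ (Projectivization.rep_nonzero _) hc1 v).1 h5
        · show P₂ L (algebraMap K L) (Q.rep ∘ hI N c)
          rw [hrep]
          apply s₂
          refine v₂ L _ _ ?_ hxG
          rw [hu']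
          exact sF L _ _ _ hxF
      · left
        exact ⟨⟨hQA, hQT, hQR⟩, hP1⟩
    · intro h L _ _ _ S hS
      let φ : ℙ L (Fin (n + 1) → L) → ℙ L (Fin (N + c + 1) → L) := fun Q =>
        Projectivization.mk L (elZ ((algebraMap K L).comp (algebraMap (𝓞 K) K)) ℓ (ver m Q.rep))
          (elZ_ne (ver_ne_zero hm hd Q.rep_nonzero))
      have hφ : Function.Injective φ := by
        intro Q Q' hQ
        obtain ⟨a, ha⟩ := (Projectivization.mk_eq_mk_iff L _ _ _ _).1 hQ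
        have ha' : (a : L) • elZ ((algebraMap K L).comp (algebraMap (𝓞 K) K)) ℓ (ver m Q'.rep) =
          elZ ((algebraMap K L).comp (algebraMap (𝓞 K) K)) ℓ (ver m Q.rep) := ha
        have h1 : ver m Q.rep = (a : L) • ver m Q'.rep := by
          have h3 := congrArg (fun v : Fin (N + c + 1) → L => v ∘ hI N c) ha'
          simp only [elZ_hI, hcsm] at h3
          exact h3.symm
        obtain ⟨s, hs⟩ := ver_prop (c := (a : L)) hm hd Q.rep_nonzero h1
        have hs0 : s ≠ 0 := by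
          intro h0
          rw [h0, zero_smul] at hs
          exact Q.rep_nonzero hs
        rw [← Q.mk_rep, ← Q'.mk_rep, Projectivization.mk_eq_mk_iff]
        exact ⟨Units.mk0 s hs0, hs.symm⟩
      refine Set.Finite.of_finite_image (f := φ) ((h L S hS).subset ?_) hφ.injOn
      rintro _ ⟨Q, ⟨⟨hQF, hQT, hQR⟩, hQG⟩, rfl⟩
      obtain ⟨u, hu⟩ := Projectivization.exists_smul_eq_mk_rep L
        (elZ ((algebraMap K L).comp (algebraMap (𝓞 K) K)) ℓ (ver m Q.rep))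
        (elZ_ne (ver_ne_zero hm hd Q.rep_nonzero))
      have hu' : (φ Q).rep = (u : L) •
        elZ ((algebraMap K L).comp (algebraMap (𝓞 K) K)) ℓ (ver m Q.rep) := hu.symm
      refine ⟨⟨?_, ?_, ?_⟩, fun hq => hQG ?_⟩
      · intro i
        rw [hu', zbl_scale _ (cover_hom hP i), hFA L (algebraMap K L) Q.rep hQF i, mul_zero]
      · rw [hu', hTY, hcsm, elZ_hI]
        exact (hT L _ _ _ u.ne_zero).2 hQT
      · intro v hv
        rw [hu']
        refine red_up hl ?_ (u : L) u.ne_zero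
        have h5 := (hR L Q.rep 1 Q.rep_nonzero one_ne_zero v).2 (hQR v hv)
        rwa [one_smul] at h5
      · have hq' : P₂ L (algebraMap K L) ((φ Q).rep ∘ hI N c) := hq
        rw [hu', hcsm, elZ_hI] at hq'
        have h6 := s₂ L _ ((u : L))⁻¹ _ hq'
        rw [smul_smul, inv_mul_cancel₀ u.ne_zero, one_smul] at h6
        exact back L _ Q.rep Q.rep_nonzero h6
  exact hcurves.trans (h2.trans hpoints.symm)

end Pool.Agent.U207.QK
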