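import Pool.Agent.U207.QK.Zbl

/-!
Project QK (helper207), part K: Q1 of Bombieri, Lang and Vojta for quasi-projective schemes follows
from Q1 for open subschemes of smooth covers.
-/

set_option autoImplicit false

namespace Pool.Agent.U207.QK

open MvPolynomial NumberField IsDedekindDomain
open scoped LinearAlgebra.Projectivization
open Pool.Agent.N254.SQ
open Pool.Agent.U207.QC (hI xI pt pt_h pt_x pt_hI pt_ne idx_cases cN)

theorem Cv.mapσ {K : Type} [Field K] {n N d c : ℕ} {m : Fin (N + 1) → Fin (n + 1) → ℕ} {ι : Type}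
    {F : ι → MvPolynomial (Fin (n + 1)) K} {P ℓ : Fin c → MvPolynomial (Fin (N + 1)) K}
    (h : Cv n N d c m F P ℓ) (σ : K →+* ℂ) :
    Cv n N d c m (fun i => MvPolynomial.map σ (F i)) (fun i => MvPolynomial.map σ (P i))
      (fun i => MvPolynomial.map σ (ℓ i)) := by
  let _ : Algebra K ℂ := σ.toAlgebra
  exact h.map ℂ

/-- entire curves in the cover are constant or lie over the variety -/
theorem Cv.lift {K : Type} [Field K] {n N d c : ℕ} {m : Fin (N + 1) → Fin (n + 1) → ℕ} {ι : Type}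
    {F : ι → MvPolynomial (Fin (n + 1)) K} {P ℓ : Fin c → MvPolynomial (Fin (N + 1)) K}
    (h : Cv n N d c m F P ℓ) (σ : K →+* ℂ) (f : ℂ → Fin (N + c + 1) → ℂ) (hf : Differentiable ℂ f)
    (hf0 : ∀ z, f z ≠ 0) (hfP : ∀ z i, eval₂ σ (f z) (coverForm P i) = 0)
    (hnc : ¬ ∀ z w, ∃ c : ℂ, f w = c • f z) :
    ∃ F₁ : ℂ → Fin (n + 1) → ℂ, Differentiable ℂ F₁ ∧ (∀ z, F₁ z ≠ 0) ∧
        (∀ z i, eval₂ σ (F₁ z) (F i) = 0) ∧ (¬ ∀ z w, ∃ c : ℂ, F₁ w = c • F₁ z) ∧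
        ∀ z, f z ∘ hI N c = ver m (F₁ z) := by
  have hσ := h.mapσ σ
  obtain ⟨-, hg⟩ := hσ.goodC
  have hfP' : ∀ z i, eval (f z) (coverForm (fun i => MvPolynomial.map σ (P i)) i) = 0 := fun z i => by
    rw [← map_cover, eval_map]
    exact hfP z i
  rcases hg.curves f hf hf0 hfP' with h1 | h1
  · exact absurd (fun z w => h1 z w) hnc
  obtain ⟨g, hg, hg0, hgF, hgf⟩ := lift_curve h.mon (le_trans (by norm_num) h.hd)
    (F := fun i => MvPolynomial.map σ (F i))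
    (fun i => by
      obtain ⟨e, -, he⟩ := hσ.hF i
      exact ⟨e, he⟩) (G := fun z => f z ∘ hI N c)
    (by
      rw [differentiable_pi] at hf ⊢
      exact fun j => hf _)
    (fun z => base_ne (P := fun i => MvPolynomial.map σ (P i)) hσ.homP (hf0 z) fun i => hfP' z i)
    (fun z => by
      obtain ⟨x, hx, hxF, hxv⟩ := h1 z
      exact ⟨x, hx, fun i => hxF _ ⟨i, rfl⟩, hxv⟩)
  refine ⟨g, hg, hg0, fun z i => ?_, fun h2 => hnc ?_, hgf⟩
  · rw [← eval_map]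
    exact hgF z i
  · refine curve_const hσ.homP hf hf0 hfP' fun z w => ?_
    obtain ⟨s, hs⟩ := h2 z w
    refine ⟨s ^ d, ?_⟩
    rw [hgf w, hgf z, hs, ver_smul h.mon]

/-- Q1 for the quasi-projective scheme `V(F) ∖ V(T)` and its closed subscheme given by `G`, for all
`V` over `𝓞 K` -/
def ZAll {K : Type} [Field K] (σ : K →+* ℂ) : Prop :=
  ∀ (n : ℕ) (ι κ τ : Type) [Finite ι] [Finite κ] (F : ι → MvPolynomial (Fin (n + 1)) (𝓞 K))
    (T : κ → MvPolynomial (Fin (n + 1)) (𝓞 K)) (G : τ → MvPolynomial (Fin (n + 1)) (𝓞 K)),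
    (∀ i, ∃ e, (F i).IsHomogeneous e) → (∀ k, ∃ e, (T k).IsHomogeneous e) →
    (∀ l, ∃ e, (G l).IsHomogeneous e) → QuasiBLV σ F T G

/-- Q1 for the inverse images of open subschemes and closed subschemes of `P^N` in the covers -/
def ZCov {K : Type} [Field K] (σ : K →+* ℂ) (E : ℕ → Set ℕ) : Prop :=
  ∀ (N c : ℕ) (P : Fin c → MvPolynomial (Fin (N + 1)) (𝓞 K)), c ∈ E N →
    (∀ i, (P i).IsHomogeneous 2) → SmoothCover (fun i => map (algebraMap (𝓞 K) K) (P i)) →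
    ∀ (κ τ : Type) [Finite κ] (T : κ → MvPolynomial (Fin (N + 1)) (𝓞 K))
      (G : τ → MvPolynomial (Fin (N + 1)) (𝓞 K)), (∀ k, ∃ e, (T k).IsHomogeneous e) →
      (∀ l, ∃ e, (G l).IsHomogeneous e) →
      QuasiBLV σ (coverForm P) (fun k => rename (hI N c) (T k)) (fun l => rename (hI N c) (G l))

theorem zbl_base_eq {K : Type} [Field K] {N c : ℕ} {ι : Type}
    (q : ι → MvPolynomial (Fin (N + 1)) (𝓞 K)) :
    (zbZ (fun i => rename (hI N c) (q i)) : ZbPred K (N + c)) =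
      (fun Ω _ τ y => zbZ q Ω τ (y ∘ hI N c) : ZbPred K (N + c)) := by
  funext Ω _ τ y
  unfold zbZ
  simp only [eval₂_rename]

theorem zbl_all {K : Type} [Field K] [NumberField K] (σ : K →+* ℂ) {E : ℕ → Set ℕ}
    (hE : ∀ N, (E N).Infinite) (H : ZCov σ E) : ZAll σ := by
  intro n ι κ τ₀ _ _ F T G hF hT hG
  classical
  rw [zb_quasi]
  rcases Nat.eq_zero_or_pos n with rfl | hn
  · exact zb_point σ _ _ T
  -- the forms over `K`
  obtain ⟨FK, hFK⟩ : ∃ FK : ι → MvPolynomial (Fin (n + 1)) K,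
    FK = fun i => map (algebraMap (𝓞 K) K) (F i) := ⟨_, rfl⟩
  obtain ⟨GK, hGK⟩ : ∃ GK : τ₀ → MvPolynomial (Fin (n + 1)) K,
    GK = fun i => map (algebraMap (𝓞 K) K) (G i) := ⟨_, rfl⟩
  have eF : ∀ (Ω : Type) [Field Ω] (τ : K →+* Ω) (x : Fin (n + 1) → Ω),
      zbZ F Ω τ x ↔ ∀ i, eval₂ τ x (FK i) = 0 := by
    intro Ω _ τ x
    unfold zbZ
    rw [hFK]
    simp only [eval₂_map]
  have eG : ∀ (Ω : Type) [Field Ω] (τ : K →+* Ω) (x : Fin (n + 1) → Ω),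
      zbZ G Ω τ x ↔ ∀ i, eval₂ τ x (GK i) = 0 := by
    intro Ω _ τ x
    unfold zbZ
    rw [hGK]
    simp only [eval₂_map]
  have hFKh : ∀ i, ∃ e, (FK i).IsHomogeneous e := by
    intro i
    obtain ⟨e, he⟩ := hF i
    rw [hFK]
    exact ⟨e, he.map _⟩
  have hGKh : ∀ i, ∃ e, (GK i).IsHomogeneous e := by
    intro i
    obtain ⟨e, he⟩ := hG i
    rw [hGK]
    exact ⟨e, he.map _⟩
  obtain ⟨T₀, hT₀, hTG⟩ := reduce (Set.range GK)
  have hTh : ∀ p ∈ T₀, ∃ e, p.IsHomogeneous e := by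
    intro p hp
    obtain ⟨k, hk⟩ := hT₀ hp
    rw [← hk]
    exact hGKh k
  -- the bound for the degrees
  obtain ⟨d, hd3, hdF, hdT⟩ : ∃ d, 3 ≤ d ∧ (∀ i, ∃ e ≤ d, (FK i).IsHomogeneous e) ∧
      ∀ p ∈ T₀, ∃ e ≤ d, p.IsHomogeneous e := by
    have := Fintype.ofFinite ι
    choose eF heF using hFKh
    choose! eT heT using hTh
    refine ⟨max 3 (max (Finset.univ.sup eF) (T₀.sup eT)), le_max_left _ _, fun i => ⟨eF i, ?_,
      heF i⟩, fun p hp => ⟨eT p, ?_, heT p hp⟩⟩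
    · exact (Finset.le_sup (f := eF) (Finset.mem_univ i)).trans
        ((le_max_left _ _).trans (le_max_right _ _))
    · exact (Finset.le_sup (f := eT) hp).trans ((le_max_right _ _).trans (le_max_right _ _))
  obtain ⟨N, m, hm, hN⟩ := t_num n d hn hd3
  have hd1 : 1 ≤ d := by omega
  obtain ⟨c, hcE, hc⟩ := (hE N).exists_gt (cN N)
  -- the cover, with integral coefficients
  obtain ⟨r, b, hb⟩ := exists_bs hm hd1 hN hdF
  choose c₀ b' hc₀ hb'2 hb'e using fun l => zb_denom (b l) (hb.hom l)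
  have hA : ∀ {a : 𝓞 K}, a ≠ 0 → algebraMap (𝓞 K) K a ≠ 0 := by
    intro a ha h0
    exact ha ((FaithfulSMul.algebraMap_injective (𝓞 K) K) (by rw [h0, map_zero]))
  have hbs : Bs n N d m FK fun l => map (algebraMap (𝓞 K) K) (b' l) := by
    have h1 := bs_scale hb (u := fun l => algebraMap (𝓞 K) K (c₀ l)) fun l => hA (hc₀ l)
    have h2 : (fun l => map (algebraMap (𝓞 K) K) (b' l)) =
        fun l => C (algebraMap (𝓞 K) K (c₀ l)) * b l := funext hb'e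
    rw [h2]
    exact h1
  obtain ⟨P, ℓ, hP, hℓ, hcv⟩ := exists_cv (algebraMap (𝓞 K) K) hn hd3 hm hN hdF b' hb'2 hbs c hc.le
  choose gF hgF1 hgF2 using hdF
  choose gT hgT1 hgT2 using fun p : T₀ => hdT p.1 p.2
  obtain ⟨ι₁, _, q₁, hq₁, v₁, w₁⟩ := t_ver K n N d m hm hd1 ι FK gF hgF2 hgF1
  obtain ⟨ι₂, _, q₂, hq₂, v₂, w₂⟩ := t_ver K n N d m hm hd1 (ι ⊕ T₀)
    (Sum.elim FK fun p : T₀ => (p : MvPolynomial (Fin (n + 1)) K)) (Sum.elim gF gT)
    (by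
      rintro (i | p)
      · exact hgF2 i
      · exact hgT2 p) (by
      rintro (i | p)
      · exact hgF1 i
      · exact hgT1 p)
  -- integral coefficients
  choose c₁ q₁' hc₁ hq₁' e₁ using fun i => zb_denom (q₁ i) (hq₁ i)
  choose c₂ q₂' hc₂ hq₂' e₂ using fun i => zb_denom (q₂ i) (hq₂ i)
  have eq₁ : ∀ (Ω : Type) [Field Ω] (τ : K →+* Ω) (y : Fin (N + 1) → Ω),
      zbZ q₁' Ω τ y ↔ ∀ i, eval₂ τ y (q₁ i) = 0 :=
    fun Ω _ τ y => forall_congr' fun i => zb_zero τ (hc₁ i) (e₁ i) y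
  have eq₂ : ∀ (Ω : Type) [Field Ω] (τ : K →+* Ω) (y : Fin (N + 1) → Ω),
      zbZ q₂' Ω τ y ↔ ∀ i, eval₂ τ y (q₂ i) = 0 :=
    fun Ω _ τ y => forall_congr' fun i => zb_zero τ (hc₂ i) (e₂ i) y
  -- the forms `T'`
  have hT'' : ∀ k, ∃ (e : ℕ) (P : MvPolynomial (Fin (N + 1)) (𝓞 K)), (T k).IsHomogeneous e ∧
      P.IsHomogeneous e ∧ pullR m P = T k ^ d := by
    intro k
    obtain ⟨e, he⟩ := hT k
    have h3 := he.pow d
    rw [mul_comm e d] at h3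
    obtain ⟨P, hP, hP2⟩ := t_zsurj (𝓞 K) n N d m hm e (T k ^ d) h3
    exact ⟨e, P, he, hP, hP2⟩
  choose eT T' hTe hT'e hT'p using hT''
  have hTT : ∀ (Ω : Type) [Field Ω] (τ : K →+* Ω) (x : Fin (n + 1) → Ω) (b : Ω), b ≠ 0 →
      ((∃ k, eval₂ (τ.comp (algebraMap (𝓞 K) K)) (b • ver m x) (T' k) ≠ 0) ↔
        ∃ k, eval₂ (τ.comp (algebraMap (𝓞 K) K)) x (T k) ≠ 0) := by
    intro Ω _ τ x b hb
    refine exists_congr fun k => ?_
    rw [zb_scale τ (hT'e k), ← zb_pull, hT'p k, eval₂_pow]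
    constructor
    · intro h h0
      apply h
      rw [h0, zero_pow (by omega), mul_zero]
    · intro h
      exact mul_ne_zero (pow_ne_zero _ hb) (pow_ne_zero _ h)
  -- the applications of the hypothesis
  have h1 := H N c P hcE hP hcv.smooth κ ι₁ T' q₁' (fun k => ⟨_, hT'e k⟩) fun i => ⟨2, hq₁' i⟩
  have h2 := H N c P hcE hP hcv.smooth κ ι₂ T' q₂' (fun k => ⟨_, hT'e k⟩) fun i => ⟨2, hq₂' i⟩
  rw [zb_quasi, zbl_base_eq] at h1 h2
  have hne : ∀ (Ω : Type) [Field Ω] (x : Fin (n + 1) → Ω) (a : Fin (n + 1)), x a = 1 → x ≠ 0 := by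
    intro Ω _ x a hxa h0
    rw [h0] at hxa
    exact zero_ne_one hxa
  refine zbl_main σ hm hd1 hP hℓ (zbZ F) (zbZ G) (zbZ q₁')
    (zbZ q₂') T T' (fun k => ⟨_, hT'e k⟩) (fun Ω _ τ c x h => zbZ_smul hF Ω τ c x h)
    (fun Ω _ τ c x h => zbZ_smul hG Ω τ c x h)
    (fun Ω _ τ c x h => zbZ_smul (fun i => ⟨2, hq₂' i⟩) Ω τ c x h) ?_ ?_ ?_ ?_ ?_ ?_ hTT ?_ h1 h2
  · intro Ω _ τ x h i
    rw [eF] at h
    let _ : Algebra K Ω := τ.toAlgebra
    have h3 := hcv.sub Ω x h i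
    have h4 : ∀ p : MvPolynomial (Fin (N + 1)) (𝓞 K),
        aeval (ver m x) (map (algebraMap (𝓞 K) K) p) =
        eval₂ (τ.comp (algebraMap (𝓞 K) K)) (ver m x) p := by
      intro p
      rw [aeval_def, eval₂_map]
      rfl
    rw [h4, h4] at h3
    rw [eval₂_cover, elZ_x, elZ_hI, h3, sub_self]
  · intro Ω _ τ x h
    rw [eF] at h
    rw [eq₁]
    let _ := τ.toAlgebra
    exact v₁ Ω x h
  · intro Ω _ τ y hy h
    rw [eq₁] at h
    let _ := τ.toAlgebra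
    obtain ⟨-, x, a, b, hxa, hyb, hyc, hx⟩ := w₁ Ω y hy h
    exact ⟨x, y b, hne Ω x a hxa, hyb, funext fun c => hyc c, (eF Ω τ x).2 hx⟩
  · intro Ω _ τ x hx hxG
    rw [eF] at hx
    rw [eG] at hxG
    rw [eq₂]
    let _ := τ.toAlgebra
    refine v₂ Ω x ?_
    rintro (i | p)
    · exact hx i
    · obtain ⟨k, hk⟩ := hT₀ p.2
      have := hxG k
      rw [hk] at this
      exact this
  · intro Ω _ τ y hy h
    rw [eq₂] at h
    let _ := τ.toAlgebra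
    obtain ⟨-, x, a, b, hxa, hyb, hyc, hx⟩ := w₂ Ω y hy h
    refine ⟨x, y b, hne Ω x a hxa, hyb, funext fun c => hyc c, (eG Ω τ x).2 fun k => ?_⟩
    have h3 := hTG Ω τ x (fun p hp => by
      rw [eval_map]
      exact hx (Sum.inr ⟨p, hp⟩)) (GK k) ⟨k, rfl⟩
    rw [eval_map] at h3
    exact h3
  · intro f hf hf0 hfA hnc
    obtain ⟨F₁, hF₁, hF0, hFS, hFn, hfF⟩ := hcv.lift σ f hf hf0 (fun z i => by
      rw [← map_cover, eval₂_map]
      exact hfA z i) hnc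
    exact ⟨F₁, hF₁, hF0, fun z => (eF ℂ σ (F₁ z)).2 (hFS z), hFn, hfF⟩
  · intro L _ _ _ x b hx hb v
    exact t_zred K n N d m hm hd1 κ T T' (fun k => ⟨_, hTe k, hT'e k, hT'p k⟩) L x b hx hb v

end Pool.Agent.U207.QK
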